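import Pool.Agent.Lib.MP_ea42c6_pr.Two.R1
import Pool.Agent.Lib.MP_ea42c6_pr.One.N7

/-!
# R9 — two orbits of the random map meet

As `orbit_inj` in One/N7 (`N7_shift`, `N7_indep`, `indep_orbit`).
`orbit_to`: induction on `j` (for all `S`, `v`): the event for `j + 1` is contained in
`⋃_x {f v = x} ∩ {OrbInj f x j, the orbit of x avoids insert v S up to j, f^[j] x = w}`.
`orbit_meet`: induction on `i` (for all `S`, `u`).  `i = 0`: `f^[j] v = u`, `orbit_to` with `w = u`.
`i + 1`: contained in `⋃_x {f u = x} ∩ E'` with `E'` the event for `i`, `x`, `v`, `insert u S`: the orbit of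
`x` avoids `u` (injectivity) and the orbit of `v` avoids `u` up to `j` (`a = 0`); `E'` depends only on the
coordinates other than `u`.
-/

namespace EA42

open scoped Classical

variable {V : Type*} [Fintype V] [DecidableEq V] {B : V → Finset V}

theorem R9_empty {E : Set (V → V)} (h : ∀ f, f ∉ E) : pr (prodW (kerW B)) E = 0 := by
  have : E = ∅ := Set.eq_empty_iff_forall_notMem.2 h
  rw [this]
  unfold pr
  simp

theorem orbit_to (hself : ∀ u, u ∈ B u) (j : ℕ) (S : Set V) (v w : V) :
    pr (prodW (kerW B)) {f | OrbInj f v j ∧ (∀ b ≤ j, f^[b] v ∉ S) ∧ f^[j] v = w} ≤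
      pk B j v w := by
  have hP := isProb_prodW (fun i => isProb_kerW hself i)
  induction j generalizing S v with
  | zero =>
    by_cases hvw : v = w
    · simp only [pk, if_pos hvw]
      exact pr_le_one hP _
    · rw [R9_empty]
      · simp only [pk, if_neg hvw]
        exact le_rfl
      · rintro f ⟨-, -, h⟩
        exact hvw h
  | succ j ih =>
    have hsub : {f : V → V | OrbInj f v (j + 1) ∧ (∀ b ≤ j + 1, f^[b] v ∉ S) ∧
        f^[j + 1] v = w} ⊆
        {f | ∃ x ∈ (Finset.univ : Finset V), f ∈ ({f | f v = x} ∩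
            {f | OrbInj f x j ∧ (∀ b ≤ j, f^[b] x ∉ insert v S) ∧ f^[j] x = w})} := by
      rintro f ⟨hinj, hS, hw⟩
      refine ⟨f v, Finset.mem_univ _, rfl, (N7_shift hinj).1, ?_, ?_⟩
      · intro i hi hmem
        rcases Set.mem_insert_iff.mp hmem with h1 | h1
        · exact (N7_shift hinj).2 i hi h1
        · refine hS (i + 1) (by omega) ?_
          rw [Function.iterate_succ_apply]
          exact h1
      · rw [← Function.iterate_succ_apply]
        exact hw
    refine (pr_mono hP hsub).trans ((pr_exists_le hP _ _).trans ?_)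
    simp only [pk]
    refine Finset.sum_le_sum fun x _ => ?_
    rw [N7_indep hself v x]
    · exact mul_le_mul_of_nonneg_left (ih (insert v S) x) ((isProb_kerW hself v).1 x)
    · have key : ∀ f g : V → V, (∀ y, y ≠ v → f y = g y) →
          (OrbInj f x j ∧ (∀ b ≤ j, f^[b] x ∉ insert v S) ∧ f^[j] x = w) →
          (OrbInj g x j ∧ (∀ b ≤ j, g^[b] x ∉ insert v S) ∧ g^[j] x = w) := by
        rintro f g hfg ⟨hinj, hS, hw⟩
        have hio := indep_orbit v x f g hfg j (fun i hi hu => hS i hi (by
          rw [hu]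
          exact Set.mem_insert _ _))
        refine ⟨?_, ?_, ?_⟩
        · intro i hi j' hj hij
          rw [← hio i hi, ← hio j' hj] at hij
          exact hinj i hi j' hj hij
        · intro i hi
          rw [← hio i hi]
          exact hS i hi
        · rw [← hio j le_rfl]
          exact hw
      intro f g h
      have h' : ∀ y, y ≠ v → f y = g y := fun y hy => h y (by simpa using hy)
      exact ⟨key f g h', key g f fun y hy => (h' y hy).symm⟩

theorem orbit_meet (hself : ∀ u, u ∈ B u) (i j : ℕ) (S : Set V) (u v : V) :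
    pr (prodW (kerW B)) {f | OrbInj f u i ∧ OrbInj f v j ∧ (∀ a ≤ i, f^[a] u ∉ S) ∧
      (∀ b ≤ j, f^[b] v ∉ S) ∧ f^[i] u = f^[j] v ∧ ∀ a < i, ∀ b ≤ j, f^[a] u ≠ f^[b] v} ≤
      ∑ w, pk B i u w * pk B j v w := by
  have hP := isProb_prodW (fun i => isProb_kerW hself i)
  induction i generalizing S u with
  | zero =>
    have e : ∑ w, pk B 0 u w * pk B j v w = pk B j v u := by
      rw [Finset.sum_eq_single u]
      · simp [pk]
      · intro b _ hb
        simp only [pk, if_neg (Ne.symm hb), zero_mul]
      · intro h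
        exact absurd (Finset.mem_univ u) h
    rw [e]
    refine (pr_mono hP ?_).trans (orbit_to hself j S v u)
    rintro f ⟨-, h2, -, h4, h5, -⟩
    exact ⟨h2, h4, h5.symm⟩
  | succ i ih =>
    have hsub : {f : V → V | OrbInj f u (i + 1) ∧ OrbInj f v j ∧ (∀ a ≤ i + 1, f^[a] u ∉ S) ∧
      (∀ b ≤ j, f^[b] v ∉ S) ∧ f^[i + 1] u = f^[j] v ∧
        ∀ a < i + 1, ∀ b ≤ j, f^[a] u ≠ f^[b] v} ⊆
        {f | ∃ x ∈ (Finset.univ : Finset V), f ∈ ({f | f u = x} ∩
            {f | OrbInj f x i ∧ OrbInj f v j ∧ (∀ a ≤ i, f^[a] x ∉ insert u S) ∧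
              (∀ b ≤ j, f^[b] v ∉ insert u S) ∧ f^[i] x = f^[j] v ∧
              ∀ a < i, ∀ b ≤ j, f^[a] x ≠ f^[b] v})} := by
      rintro f ⟨h1, h2, h3, h4, h5, h6⟩
      refine ⟨f u, Finset.mem_univ _, rfl, (N7_shift h1).1, h2, ?_, ?_, ?_, ?_⟩
      · intro a ha hmem
        rcases Set.mem_insert_iff.mp hmem with h7 | h7
        · exact (N7_shift h1).2 a ha h7
        · refine h3 (a + 1) (by omega) ?_
          rw [Function.iterate_succ_apply]
          exact h7
      · intro b hb hmem
        rcases Set.mem_insert_iff.mp hmem with h7 | h7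
        · exact h6 0 (by omega) b hb h7.symm
        · exact h4 b hb h7
      · rw [← Function.iterate_succ_apply]
        exact h5
      · intro a ha b hb
        rw [← Function.iterate_succ_apply]
        exact h6 (a + 1) (by omega) b hb
    refine (pr_mono hP hsub).trans ((pr_exists_le hP _ _).trans ?_)
    have e : ∑ w, pk B (i + 1) u w * pk B j v w =
        ∑ x, kerW B u x * ∑ w, pk B i x w * pk B j v w := by
      simp only [pk, Finset.sum_mul, Finset.mul_sum]
      rw [Finset.sum_comm]
      refine Finset.sum_congr rfl fun x _ => Finset.sum_congr rfl fun w _ => ?_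
      ring
    rw [e]
    refine Finset.sum_le_sum fun x _ => ?_
    rw [N7_indep hself u x]
    · exact mul_le_mul_of_nonneg_left (ih (insert u S) x) ((isProb_kerW hself u).1 x)
    · have key : ∀ f g : V → V, (∀ y, y ≠ u → f y = g y) →
          (OrbInj f x i ∧ OrbInj f v j ∧ (∀ a ≤ i, f^[a] x ∉ insert u S) ∧
              (∀ b ≤ j, f^[b] v ∉ insert u S) ∧ f^[i] x = f^[j] v ∧
              ∀ a < i, ∀ b ≤ j, f^[a] x ≠ f^[b] v) →
          (OrbInj g x i ∧ OrbInj g v j ∧ (∀ a ≤ i, g^[a] x ∉ insert u S) ∧
              (∀ b ≤ j, g^[b] v ∉ insert u S) ∧ g^[i] x = g^[j] v ∧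
              ∀ a < i, ∀ b ≤ j, g^[a] x ≠ g^[b] v) := by
        rintro f g hfg ⟨h1, h2, h3, h4, h5, h6⟩
        have hio := indep_orbit u x f g hfg i (fun a ha hu => h3 a ha (by
          rw [hu]
          exact Set.mem_insert _ _))
        have hjo := indep_orbit u v f g hfg j (fun b hb hu => h4 b hb (by
          rw [hu]
          exact Set.mem_insert _ _))
        refine ⟨?_, ?_, ?_, ?_, ?_, ?_⟩
        · intro a ha a' ha' hij
          rw [← hio a ha, ← hio a' ha'] at hij
          exact h1 a ha a' ha' hij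
        · intro a ha a' ha' hij
          rw [← hjo a ha, ← hjo a' ha'] at hij
          exact h2 a ha a' ha' hij
        · intro a ha
          rw [← hio a ha]
          exact h3 a ha
        · intro b hb
          rw [← hjo b hb]
          exact h4 b hb
        · rw [← hio i le_rfl, ← hjo j le_rfl]
          exact h5
        · intro a ha b hb
          rw [← hio a ha.le, ← hjo b hb]
          exact h6 a ha b hb
      intro f g h
      have h' : ∀ y, y ≠ u → f y = g y := fun y hy => h y (by simpa using hy)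
      exact ⟨key f g h', key g f fun y hy => (h' y hy).symm⟩

end EA42
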