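import Pool.Agent.Lib.MP_ea42c6_pr.Two.Defs
import Pool.Agent.Lib.MP_ea42c6_pr.One.N1

/-!
# R1 — transition probabilities

`kerW_nonneg`, `isProb_kerW` are in One/N1.  `pk_add`: induction on `i`.  `pk_last`: `pk_add j 1`.
`pk_rev`: detailed balance `|B u| kerW u v = |B v| kerW v u` (both 1 or both 0 by symmetry), induction
with `pk_last` on one side.  `pk_col`: `pk j u v = |B v|/|B u| pk j v u ≤ κ pk j v u`, sum over `u`.
`pk_le`: `pk (j+1) u v = ∑ x, pk j u x * kerW x v ≤ (1/D) ∑ x, pk j u x`.
`kappa_one`: `D ≤ |B u| ≤ κ D`.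
-/

namespace EA42

open scoped Classical

variable {V : Type*} [Fintype V] {B : V → Finset V}

theorem pk_nonneg (j : ℕ) (u v : V) : 0 ≤ pk B j u v := by
  induction j generalizing u with
  | zero =>
    unfold pk
    split_ifs
    · exact zero_le_one
    · exact le_rfl
  | succ j ih =>
    unfold pk
    exact Finset.sum_nonneg fun x _ => mul_nonneg (kerW_nonneg u x) (ih x)

theorem pk_sum (hself : ∀ u, u ∈ B u) (j : ℕ) (u : V) : ∑ v, pk B j u v = 1 := by
  induction j generalizing u with
  | zero =>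
    unfold pk
    rw [Finset.sum_ite_eq Finset.univ u, if_pos (Finset.mem_univ _)]
  | succ j ih =>
    unfold pk
    rw [Finset.sum_comm]
    have h1 : ∀ x, ∑ v, kerW B u x * pk B j x v = kerW B u x := by
      intro x
      rw [← Finset.mul_sum, ih x, mul_one]
    rw [Finset.sum_congr rfl fun x _ => h1 x]
    exact (isProb_kerW hself u).2

theorem pk_one (u v : V) : pk B 1 u v = kerW B u v := by
  have h : pk B 1 u v = ∑ x, kerW B u x * (if x = v then (1 : ℝ) else 0) := rfl
  rw [h]
  rw [Finset.sum_congr rfl fun x _ => by rw [mul_ite, mul_one, mul_zero]]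
  rw [Finset.sum_ite_eq' Finset.univ v, if_pos (Finset.mem_univ _)]

theorem pk_add (i j : ℕ) (u v : V) : pk B (i + j) u v = ∑ x, pk B i u x * pk B j x v := by
  induction i generalizing u with
  | zero =>
    have h : ∀ x, pk B 0 u x * pk B j x v = if u = x then pk B j x v else 0 := by
      intro x
      have h0 : pk B 0 u x = if u = x then (1 : ℝ) else 0 := rfl
      rw [h0, ite_mul, one_mul, zero_mul]
    rw [Finset.sum_congr rfl fun x _ => h x, Finset.sum_ite_eq Finset.univ u,
      if_pos (Finset.mem_univ _), Nat.zero_add]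
  | succ i ih =>
    have h1 : i + 1 + j = (i + j) + 1 := by omega
    rw [h1]
    have h2 : pk B (i + j + 1) u v = ∑ y, kerW B u y * pk B (i + j) y v := rfl
    have h3 : ∀ x, pk B (i + 1) u x = ∑ y, kerW B u y * pk B i y x := fun x => rfl
    have h4 : ∑ x, pk B (i + 1) u x * pk B j x v =
        ∑ x, ∑ y, kerW B u y * pk B i y x * pk B j x v :=
      Finset.sum_congr rfl fun x _ => by rw [h3 x, Finset.sum_mul]
    rw [h2, h4, Finset.sum_comm]
    refine Finset.sum_congr rfl fun y _ => ?_
    rw [ih y, Finset.mul_sum]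
    exact Finset.sum_congr rfl fun x _ => (mul_assoc _ _ _).symm

theorem pk_last (j : ℕ) (u v : V) : pk B (j + 1) u v = ∑ x, pk B j u x * kerW B x v := by
  rw [pk_add]
  exact Finset.sum_congr rfl fun x _ => by rw [pk_one]

theorem pk_rev (hB : SymB B) (j : ℕ) (u v : V) :
    ((B u).card : ℝ) * pk B j u v = ((B v).card : ℝ) * pk B j v u := by
  have hbal : ∀ x y, ((B x).card : ℝ) * kerW B x y = ((B y).card : ℝ) * kerW B y x := by
    intro x y
    have hx : ((B x).card : ℝ) ≠ 0 := by
      have : 0 < (B x).card := Finset.card_pos.mpr ⟨x, hB.self x⟩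
      positivity
    have hy : ((B y).card : ℝ) ≠ 0 := by
      have : 0 < (B y).card := Finset.card_pos.mpr ⟨y, hB.self y⟩
      positivity
    unfold kerW
    by_cases h : y ∈ B x
    · rw [if_pos h, if_pos (hB.symm x y h), mul_one_div, mul_one_div, div_self hx, div_self hy]
    · have h' : x ∉ B y := fun h1 => h (hB.symm y x h1)
      rw [if_neg h, if_neg h', mul_zero, mul_zero]
  induction j generalizing u v with
  | zero =>
    have h0 : ∀ a b : V, pk B 0 a b = if a = b then (1 : ℝ) else 0 := fun a b => rfl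
    rw [h0, h0]
    by_cases h : u = v
    · rw [h]
    · rw [if_neg h, if_neg fun h1 => h h1.symm, mul_zero, mul_zero]
  | succ j ih =>
    have h3 : pk B (j + 1) u v = ∑ y, kerW B u y * pk B j y v := rfl
    rw [h3, pk_last, Finset.mul_sum, Finset.mul_sum]
    refine Finset.sum_congr rfl fun y _ => ?_
    rw [← mul_assoc, hbal u y, mul_right_comm, ih y v]
    ring

theorem kappa_one [Nonempty V] {D κ : ℝ} (h : DReg B D κ) : 1 ≤ κ := by
  obtain ⟨u⟩ := (inferInstance : Nonempty V)
  have h1 : D * 1 ≤ D * κ := by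
    have := (h.lo u).trans (h.hi u)
    linarith [mul_comm κ D]
  exact le_of_mul_le_mul_left h1 h.pos

theorem pk_col {D κ : ℝ} (h : DReg B D κ) (j : ℕ) (v : V) : ∑ u, pk B j u v ≤ κ := by
  have hD := h.pos
  have h1 : ∀ u, pk B j u v ≤ κ * pk B j v u := by
    intro u
    have hu : 0 < ((B u).card : ℝ) := hD.trans_le (h.lo u)
    have h2 := pk_rev h.sym j u v
    have h3 : ((B v).card : ℝ) * pk B j v u ≤ (κ * ((B u).card : ℝ)) * pk B j v u := by
      refine mul_le_mul_of_nonneg_right ?_ (pk_nonneg j v u)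
      have hk : 0 ≤ κ := by
        have : 0 ≤ κ * D := (hD.le.trans (h.lo u)).trans (h.hi u)
        exact nonneg_of_mul_nonneg_left this hD
      calc ((B v).card : ℝ) ≤ κ * D := h.hi v
        _ ≤ κ * ((B u).card : ℝ) := mul_le_mul_of_nonneg_left (h.lo u) hk
    have h4 : ((B u).card : ℝ) * pk B j u v ≤ ((B u).card : ℝ) * (κ * pk B j v u) := by
      rw [h2]
      linarith [h3, mul_assoc κ ((B u).card : ℝ) (pk B j v u),
        mul_left_comm ((B u).card : ℝ) κ (pk B j v u)]
    exact le_of_mul_le_mul_left h4 hu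
  calc ∑ u, pk B j u v ≤ ∑ u, κ * pk B j v u := Finset.sum_le_sum fun u _ => h1 u
    _ = κ := by rw [← Finset.mul_sum, pk_sum h.sym.self, mul_one]

theorem pk_le {D κ : ℝ} (h : DReg B D κ) (j : ℕ) (u v : V) : pk B (j + 1) u v ≤ 1 / D := by
  have hD := h.pos
  rw [pk_last]
  have h1 : ∀ x, kerW B x v ≤ 1 / D := by
    intro x
    unfold kerW
    split_ifs
    · exact one_div_le_one_div_of_le hD (h.lo x)
    · positivity
  calc ∑ x, pk B j u x * kerW B x v ≤ ∑ x, pk B j u x * (1 / D) :=
        Finset.sum_le_sum fun x _ => mul_le_mul_of_nonneg_left (h1 x) (pk_nonneg j u x)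
    _ = 1 / D := by rw [← Finset.sum_mul, pk_sum h.sym.self, one_mul]

end EA42
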