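import Pool.Agent.Lib.MP_ea42c6_pr.Two.Defs
import Pool.Agent.Lib.MP_ea42c6_pr.One.N12
import Pool.Agent.Lib.MP_ea42c6_pr.One.N5

/-!
# R15 — sizes of balls

`cells_prob`: as `near_count` in One/N12, with `δ = 1/2` in `A2_irreg` and keeping both
inequalities of `Reg`.  (`near_count_prob` transfers from `datW` to positions.)
`ball_lower`: the members of the cell of `u` are in the ball (`touch_lt` with `δ = ε = 0`, G1).
`near_upper`: as `near_count_det` (`tdist` is symmetric, `tdist_symm` in N5).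
-/

namespace EA42

open MeasureTheory
open scoped Classical ENNReal

theorem cells_prob (n m : ℕ) [NeZero m] :
    (Measure.pi fun _ : Fin n => unif)
      {X | ¬ ∀ c : Cell m, (n : ℝ) / (m : ℝ) ^ 2 / 2 ≤ (cnt (fun u => cell m (X u)) c : ℝ) ∧
        (cnt (fun u => cell m (X u)) c : ℝ) ≤ 2 * ((n : ℝ) / (m : ℝ) ^ 2)} ≤
      ENNReal.ofReal ((m : ℝ) ^ 2 * (2 * Real.exp (-((n : ℝ) / (m : ℝ) ^ 2 / 16)))) := by
  have hsub : {X : Fin n → Pt | ¬ ∀ c : Cell m,
      (n : ℝ) / (m : ℝ) ^ 2 / 2 ≤ (cnt (fun u => cell m (X u)) c : ℝ) ∧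
        (cnt (fun u => cell m (X u)) c : ℝ) ≤ 2 * ((n : ℝ) / (m : ℝ) ^ 2)} ⊆
      {X : Fin n → Pt | datum m 0 X ∈ {d : Datum (Fin n) m |
        ¬ Reg d.1 Finset.univ (1 / 2) ((n : ℝ) / (m : ℝ) ^ 2)}} := by
    intro X hbad hreg
    apply hbad
    intro c
    have h2 := abs_le.mp (hreg c (Finset.mem_univ c))
    have h3 : -(1 / 2 * ((n : ℝ) / (m : ℝ) ^ 2)) ≤
      (cnt (fun u => cell m (X u)) c : ℝ) - (n : ℝ) / (m : ℝ) ^ 2 := h2.1
    have h4 : (cnt (fun u => cell m (X u)) c : ℝ) - (n : ℝ) / (m : ℝ) ^ 2 ≤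
      1 / 2 * ((n : ℝ) / (m : ℝ) ^ 2) := h2.2
    have h5 : (0 : ℝ) ≤ (n : ℝ) / (m : ℝ) ^ 2 := by positivity
    constructor
    · linarith
    · linarith
  refine (measure_mono hsub).trans ?_
  refine (near_count_prob n m 0 _).trans ?_
  refine ENNReal.ofReal_le_ofReal ((A2_irreg n m 0 (δ := 1 / 2) (by norm_num)
    (by norm_num)).trans (le_of_eq ?_))
  congr 3
  ring

theorem ball_lower {n m : ℕ} [NeZero m] (X : Fin n → Pt)
    (hX : ∀ u, X u ∈ Set.Icc (0 : ℝ) 1 ×ˢ Set.Icc (0 : ℝ) 1) {r b : ℝ}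
    (h3 : 3 / (m : ℝ) ≤ r) (hb : ∀ c : Cell m, b ≤ (cnt (fun u => cell m (X u)) c : ℝ))
    (u : Fin n) : b ≤ ((ball X r u).card : ℝ) := by
  refine (hb (cell m (X u))).trans ?_
  have hsub : (Finset.univ.filter fun v => cell m (X v) = cell m (X u)) ⊆ ball X r u := by
    intro v hv
    have hv' := (Finset.mem_filter.1 hv).2
    unfold ball
    rw [Finset.mem_filter]
    refine ⟨Finset.mem_univ _, ?_⟩
    have e1 := congrArg Prod.fst hv'
    have e2 := congrArg Prod.snd hv'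
    unfold cell at e1 e2
    exact touch_lt h3 (hX u) (hX v) 0 0 (by simpa using e1) (by simpa using e2) (by norm_num)
  have := Finset.card_le_card hsub
  unfold cnt
  exact_mod_cast this

theorem near_upper {n m : ℕ} [NeZero m] (X : Fin n → Pt)
    (hX : ∀ u, X u ∈ Set.Icc (0 : ℝ) 1 ×ˢ Set.Icc (0 : ℝ) 1) {ρ b : ℝ}
    (hρ : ρ ≤ 1 / (m : ℝ)) (hb : ∀ c : Cell m, (cnt (fun u => cell m (X u)) c : ℝ) ≤ b)
    (z : Fin n) :
    ((Finset.univ.filter fun x => tdist (X z) (X x) < ρ).card : ℝ) ≤ 81 * b := by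
  refine le_trans ?_ (near_count_det X hX hb z)
  have hsub : (Finset.univ.filter fun x => tdist (X z) (X x) < ρ) ⊆
      Finset.univ.filter fun u => ¬ (1 / (m : ℝ) ≤ tdist (X u) (X z)) := by
    intro v hv
    have hv' := (Finset.mem_filter.1 hv).2
    rw [Finset.mem_filter]
    refine ⟨Finset.mem_univ _, ?_⟩
    rw [not_le, tdist_symm]
    exact lt_of_lt_of_le hv' hρ
  exact_mod_cast Finset.card_le_card hsub

end EA42
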