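import Pool.Agent.Lib.MP_ea42c6_pr.Two.R14
import Pool.Agent.Lib.MP_ea42c6_pr.Two.R15

/-!
# R16 — the positions are good with high probability

Note `r ≤ 1` (`√(8 L) r ≤ 1`, `L ≥ 1`).
* square: almost surely (see `hz` in One/N15).
* `lo`: `m = ⌈3/r⌉₊`, `3/m ≤ r`, `m ≤ 4/r`: `n/m²/2 ≥ n r²/32`; `cells_prob`, `ball_lower`; probability
  `≤ (16/r²)(2 exp (-n r²/256))`.
* `up`: `m = ⌊1/r⌋₊ ≥ 1`, `r ≤ 1/m ≤ 2 r`: `81 · 2 n/m² ≤ 648 n r²` (`near_upper`, `ρ = r`;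
  `ball X r u = {x | tdist (X u) (X x) < r}` by definition); probability `≤ (1/r²)(2 exp (-n r²/16))`.
* `near j`: `ρ = √(8 j) r ≤ 1`, `m = ⌊1/ρ⌋₊`, `ρ ≤ 1/m ≤ 2 ρ`; `81 · 2 n/m² ≤ 648 n ρ² = 648 (8 j) n r²`;
  probability `≤ (1/ρ²)(2 exp (-n ρ²/16)) ≤ (1/r²)(2 exp (-n r²/16))`; `L` values of `j`.
* `drift`: given `lo`, `|meanF| = |∑_{v ∈ ball} sdiff|/|ball| ≤ (r/L)` if `|∑| ≤ lam := (r/L) n r²/50`;
  `drift_prob` with `θ = 1/(1600 L r)`: `-θ lam + 16 n θ² r⁴ = -n r²/(80000 L²) + n r²/(160000 L²)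
  = -n r²/(160000 L²)`; two coordinates: `4 n exp (-n r²/(160000 L²))`.
Total: `(34 + 2 L)/r² · exp (-n r²/256) + 4 n exp (..)`, and `34 + 2 L ≤ 36 L`,
`n r²/256 ≥ n r²/(160000 L²)`.
-/

namespace EA42

open MeasureTheory
open scoped Classical ENNReal

theorem R16_upper (n : ℕ) {ρ : ℝ} (h0 : 0 < ρ) (h1 : ρ ≤ 1) :
    (Measure.pi fun _ : Fin n => unif)
      {X | (∀ u, X u ∈ Set.Icc (0 : ℝ) 1 ×ˢ Set.Icc (0 : ℝ) 1) ∧
        ¬ ∀ z, ((Finset.univ.filter fun x => tdist (X z) (X x) < ρ).card : ℝ) ≤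
          648 * (n * ρ ^ 2)} ≤
      ENNReal.ofReal (2 / ρ ^ 2 * Real.exp (-(n * ρ ^ 2 / 16))) := by
  set m : ℕ := ⌊1 / ρ⌋₊ with hm
  have hx1 : (1 : ℝ) ≤ 1 / ρ := by
    rw [le_div_iff₀ h0]
    linarith
  have hm1 : 1 ≤ m := by
    rw [hm]
    exact Nat.le_floor (by simpa using hx1)
  have hmR : (1 : ℝ) ≤ m := by exact_mod_cast hm1
  have hm0 : (0 : ℝ) < m := by linarith
  have hle : (m : ℝ) ≤ 1 / ρ := Nat.floor_le (by positivity)
  have hlt : 1 / ρ < m + 1 := Nat.lt_floor_add_one _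
  have : NeZero m := ⟨by omega⟩
  have hρm : ρ ≤ 1 / (m : ℝ) := by
    rw [le_div_iff₀ hm0]
    rw [le_div_iff₀ h0] at hle
    linarith
  have hm2 : 1 ≤ 2 * ρ * m := by
    have : 1 / ρ ≤ 2 * m := by linarith
    rw [div_le_iff₀ h0] at this
    linarith
  have hn0 : (0 : ℝ) ≤ n := Nat.cast_nonneg n
  have hb : 81 * (2 * ((n : ℝ) / (m : ℝ) ^ 2)) ≤ 648 * (n * ρ ^ 2) := by
    have h2 : (n : ℝ) / (m : ℝ) ^ 2 ≤ 4 * (n * ρ ^ 2) := by
      rw [div_le_iff₀ (by positivity)]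
      have h3 : (1 : ℝ) ≤ (2 * ρ * m) ^ 2 := by nlinarith
      calc (n : ℝ) = n * 1 := (mul_one _).symm
        _ ≤ n * (2 * ρ * m) ^ 2 := mul_le_mul_of_nonneg_left h3 hn0
        _ = 4 * (n * ρ ^ 2) * (m : ℝ) ^ 2 := by ring
    linarith
  refine (measure_mono ?_).trans ((cells_prob n m).trans (ENNReal.ofReal_le_ofReal ?_))
  · rintro X ⟨hX, hbad⟩
    intro hc
    exact hbad fun z => (near_upper X hX hρm (fun c => (hc c).2) z).trans hb
  · have h4 : (m : ℝ) ^ 2 ≤ 1 / ρ ^ 2 := by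
      have := pow_le_pow_left₀ hm0.le hle 2
      rwa [div_pow, one_pow] at this
    have h5 : Real.exp (-((n : ℝ) / (m : ℝ) ^ 2 / 16)) ≤ Real.exp (-(n * ρ ^ 2 / 16)) := by
      refine Real.exp_le_exp.2 (neg_le_neg ?_)
      refine div_le_div_of_nonneg_right ?_ (by norm_num)
      rw [le_div_iff₀ (by positivity)]
      have h6 : ρ * m ≤ 1 := by
        rw [le_div_iff₀ hm0] at hρm
        exact hρm
      have h7 : (ρ * m) ^ 2 ≤ 1 := by
        have : 0 ≤ ρ * m := by positivity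
        nlinarith
      calc (n : ℝ) * ρ ^ 2 * (m : ℝ) ^ 2 = (n : ℝ) * (ρ * m) ^ 2 := by ring
        _ ≤ (n : ℝ) * 1 := mul_le_mul_of_nonneg_left h7 hn0
        _ = (n : ℝ) := mul_one _
    calc (m : ℝ) ^ 2 * (2 * Real.exp (-((n : ℝ) / (m : ℝ) ^ 2 / 16)))
        ≤ 1 / ρ ^ 2 * (2 * Real.exp (-(n * ρ ^ 2 / 16))) :=
          mul_le_mul h4 (mul_le_mul_of_nonneg_left h5 (by norm_num)) (by positivity) (by positivity)
      _ = 2 / ρ ^ 2 * Real.exp (-(n * ρ ^ 2 / 16)) := by ring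

theorem R16_lower (n : ℕ) {r : ℝ} (h0 : 0 < r) (h1 : r ≤ 1) :
    (Measure.pi fun _ : Fin n => unif)
      {X | (∀ u, X u ∈ Set.Icc (0 : ℝ) 1 ×ˢ Set.Icc (0 : ℝ) 1) ∧
        ¬ ∀ u, n * r ^ 2 / 50 ≤ ((ball X r u).card : ℝ)} ≤
      ENNReal.ofReal (32 / r ^ 2 * Real.exp (-(n * r ^ 2 / 256))) := by
  set m : ℕ := ⌈3 / r⌉₊ with hm
  have hx1 : (1 : ℝ) ≤ 1 / r := by
    rw [le_div_iff₀ h0]
    linarith
  have hx3 : (0 : ℝ) < 3 / r := by positivity
  have hle : 3 / r ≤ m := Nat.le_ceil _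
  have hm0 : (0 : ℝ) < m := by linarith
  have hmN : m ≠ 0 := by
    intro h
    rw [h] at hm0
    simp at hm0
  have : NeZero m := ⟨hmN⟩
  have hlt : (m : ℝ) < 3 / r + 1 := Nat.ceil_lt_add_one hx3.le
  have h4r : (m : ℝ) ≤ 4 / r := by
    have : 4 / r = 3 / r + 1 / r := by ring
    linarith
  have h3m : 3 / (m : ℝ) ≤ r := by
    rw [div_le_iff₀ hm0]
    rw [div_le_iff₀ h0] at hle
    linarith
  have hn0 : (0 : ℝ) ≤ n := Nat.cast_nonneg n
  have hrm : r * m ≤ 4 := by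
    rw [le_div_iff₀ h0] at h4r
    linarith
  have hrm2 : (r * m) ^ 2 ≤ 16 := by
    have : 0 ≤ r * m := by positivity
    nlinarith
  have hb : n * r ^ 2 / 50 ≤ (n : ℝ) / (m : ℝ) ^ 2 / 2 := by
    rw [div_div, le_div_iff₀ (by positivity)]
    calc (n : ℝ) * r ^ 2 / 50 * ((m : ℝ) ^ 2 * 2) = (n : ℝ) * ((r * m) ^ 2 / 25) := by ring
      _ ≤ (n : ℝ) * 1 := mul_le_mul_of_nonneg_left (by linarith) hn0
      _ = (n : ℝ) := mul_one _
  refine (measure_mono ?_).trans ((cells_prob n m).trans (ENNReal.ofReal_le_ofReal ?_))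
  · rintro X ⟨hX, hbad⟩
    intro hc
    exact hbad fun u => hb.trans (ball_lower X hX h3m (fun c => (hc c).1) u)
  · have h4 : (m : ℝ) ^ 2 ≤ 16 / r ^ 2 := by
      have := pow_le_pow_left₀ hm0.le h4r 2
      rw [div_pow] at this
      norm_num at this ⊢
      exact this
    have h5 : Real.exp (-((n : ℝ) / (m : ℝ) ^ 2 / 16)) ≤ Real.exp (-(n * r ^ 2 / 256)) := by
      refine Real.exp_le_exp.2 (neg_le_neg ?_)
      rw [div_div, le_div_iff₀ (by positivity)]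
      calc (n : ℝ) * r ^ 2 / 256 * ((m : ℝ) ^ 2 * 16) = (n : ℝ) * ((r * m) ^ 2 / 16) := by ring
        _ ≤ (n : ℝ) * 1 := mul_le_mul_of_nonneg_left (by linarith) hn0
        _ = (n : ℝ) := mul_one _
    calc (m : ℝ) ^ 2 * (2 * Real.exp (-((n : ℝ) / (m : ℝ) ^ 2 / 16)))
        ≤ 16 / r ^ 2 * (2 * Real.exp (-(n * r ^ 2 / 256))) :=
          mul_le_mul h4 (mul_le_mul_of_nonneg_left h5 (by norm_num)) (by positivity) (by positivity)
      _ = 32 / r ^ 2 * Real.exp (-(n * r ^ 2 / 256)) := by ring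

theorem R16_mean {n : ℕ} (X : Fin n → Pt) {r a lam : ℝ} (F : Fin n → Fin n → ℝ) (u : Fin n)
    (hb : 0 < a) (hc : a ≤ ((ball X r u).card : ℝ)) (hs : |∑ v ∈ ball X r u, F u v| ≤ lam) :
    |meanF (ball X r) F u| ≤ lam / a := by
  have hpos : (0 : ℝ) < ((ball X r u).card : ℝ) := lt_of_lt_of_le hb hc
  have e : meanF (ball X r) F u = (∑ v ∈ ball X r u, F u v) / ((ball X r u).card : ℝ) := by
    unfold meanF kerW
    rw [Finset.sum_div, ← Finset.sum_filter_add_sum_filter_not Finset.univ (fun v => v ∈ ball X r u)]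
    rw [Finset.sum_eq_zero (s := Finset.univ.filter fun v => ¬ v ∈ ball X r u), add_zero]
    · rw [Finset.filter_mem_eq_inter, Finset.univ_inter]
      refine Finset.sum_congr rfl fun v hv => ?_
      rw [if_pos hv]
      ring
    · intro v hv
      rw [if_neg (Finset.mem_filter.1 hv).2, zero_mul]
  rw [e, abs_div, abs_of_pos hpos]
  have hlam : 0 ≤ lam := (abs_nonneg _).trans hs
  exact div_le_div₀ hlam hs hb hc

theorem R16_sq (n : ℕ) : (Measure.pi fun _ : Fin n => unif)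
    {X | ¬ ∀ u, X u ∈ Set.Icc (0 : ℝ) 1 ×ˢ Set.Icc (0 : ℝ) 1} = 0 := by
  have h1 : ∀ᵐ z ∂unif, z ∈ Set.Icc (0 : ℝ) 1 ×ˢ Set.Icc (0 : ℝ) 1 := by
    unfold unif
    exact ae_restrict_mem (measurableSet_Icc.prod measurableSet_Icc)
  have h2 : ∀ᵐ X ∂(Measure.pi fun _ : Fin n => unif), ∀ u : Fin n,
      X u ∈ Set.Icc (0 : ℝ) 1 ×ˢ Set.Icc (0 : ℝ) 1 := by
    rw [ae_all_iff]
    intro u
    exact (measurePreserving_eval (fun _ : Fin n => unif) u).quasiMeasurePreserving.ae h1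
  exact ae_iff.1 h2

theorem goodX_prob {n L : ℕ} (hn : 0 < n) (hL : 1 ≤ L) {r : ℝ} (hr : 0 < r)
    (hr1 : Real.sqrt (8 * L) * r ≤ 1) :
    (Measure.pi fun _ : Fin n => unif) {X | ¬ GoodX X r L} ≤
      ENNReal.ofReal ((40 * L / r ^ 2 + 4 * n) *
        Real.exp (-(n * r ^ 2 / (160000 * (L : ℝ) ^ 2)))) := by
  have hn0 : (0 : ℝ) < n := by exact_mod_cast hn
  have hL1 : (1 : ℝ) ≤ L := by exact_mod_cast hL
  have hL0 : (0 : ℝ) < L := by linarith
  have hs1 : ∀ j : ℕ, 1 ≤ j → (1 : ℝ) ≤ Real.sqrt (8 * j) := by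
    intro j hj
    have : (1 : ℝ) ≤ j := by exact_mod_cast hj
    rw [Real.one_le_sqrt]
    linarith
  have hrle : r ≤ 1 := by
    have := hs1 L hL
    nlinarith
  set μ : Measure (Fin n → Pt) := Measure.pi fun _ : Fin n => unif with hμ
  set E : ℝ := Real.exp (-(n * r ^ 2 / (160000 * (L : ℝ) ^ 2))) with hE
  have hE0 : 0 ≤ E := (Real.exp_pos _).le
  set SQ : (Fin n → Pt) → Prop := fun X => ∀ u, X u ∈ Set.Icc (0 : ℝ) 1 ×ˢ Set.Icc (0 : ℝ) 1
    with hSQ
  have hL2 : (1 : ℝ) ≤ (L : ℝ) ^ 2 := by nlinarith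
  have hEle : ∀ c : ℝ, 0 < c → c ≤ 160000 → Real.exp (-(n * r ^ 2 / c)) ≤ E := by
    intro c hc hc2
    refine Real.exp_le_exp.2 (neg_le_neg ?_)
    exact div_le_div_of_nonneg_left (by positivity) hc (by nlinarith)
  -- the radii
  have hN : ∀ j : ℕ, 1 ≤ j → j ≤ L → μ {X | SQ X ∧ ¬ ∀ z, ((Finset.univ.filter fun x =>
      tdist (X z) (X x) < Real.sqrt (8 * j) * r).card : ℝ) ≤
        648 * (n * (Real.sqrt (8 * j) * r) ^ 2)} ≤ ENNReal.ofReal (2 / r ^ 2 * E) := by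
    intro j hj hjL
    have hjL' : (j : ℝ) ≤ L := by exact_mod_cast hjL
    have hj1 := hs1 j hj
    have hρ0 : 0 < Real.sqrt (8 * j) * r := mul_pos (by linarith) hr
    have hρr : r ≤ Real.sqrt (8 * j) * r := by nlinarith
    have hρ1 : Real.sqrt (8 * j) * r ≤ 1 := by
      refine le_trans ?_ hr1
      exact mul_le_mul_of_nonneg_right (Real.sqrt_le_sqrt (by linarith)) hr.le
    refine (R16_upper n hρ0 hρ1).trans (ENNReal.ofReal_le_ofReal ?_)
    have h1 : r ^ 2 ≤ (Real.sqrt (8 * j) * r) ^ 2 := pow_le_pow_left₀ hr.le hρr 2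
    refine mul_le_mul (div_le_div_of_nonneg_left (by norm_num) (by positivity) h1) ?_
      (Real.exp_pos _).le (by positivity)
    refine le_trans (Real.exp_le_exp.2 (neg_le_neg ?_)) (hEle 16 (by norm_num) (by norm_num))
    exact div_le_div_of_nonneg_right (mul_le_mul_of_nonneg_left h1 hn0.le) (by norm_num)
  have hU : μ {X | SQ X ∧ ¬ ∀ z, ((Finset.univ.filter fun x =>
      tdist (X z) (X x) < r).card : ℝ) ≤ 648 * (n * r ^ 2)} ≤ ENNReal.ofReal (2 / r ^ 2 * E) := by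
    refine (R16_upper n hr hrle).trans (ENNReal.ofReal_le_ofReal ?_)
    exact mul_le_mul_of_nonneg_left (hEle 16 (by norm_num) (by norm_num)) (by positivity)
  have hLo : μ {X | SQ X ∧ ¬ ∀ u, n * r ^ 2 / 50 ≤ ((ball X r u).card : ℝ)} ≤
      ENNReal.ofReal (32 / r ^ 2 * E) := by
    refine (R16_lower n hr hrle).trans (ENNReal.ofReal_le_ofReal ?_)
    exact mul_le_mul_of_nonneg_left (hEle 256 (by norm_num) (by norm_num)) (by positivity)
  set lam : ℝ := r / L * (n * r ^ 2 / 50) with hlam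
  have hD : ∀ i : Bool, μ {X | ¬ ∀ u, |∑ v ∈ ball X r u, sdiff (co i (X u)) (co i (X v))| ≤ lam} ≤
      ENNReal.ofReal (2 * n * E) := by
    intro i
    have hθ0 : (0 : ℝ) < 1 / (1600 * L * r) := by positivity
    have hθr : 1 / (1600 * L * r) * r ≤ 1 := by
      have : 1 / (1600 * L * r) * r = 1 / (1600 * L) := by
        field_simp
      rw [this, div_le_one (by positivity)]
      linarith
    refine (drift_prob i hn (lam := lam) hr hθ0 hθr).trans (ENNReal.ofReal_le_ofReal ?_)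
    refine mul_le_mul_of_nonneg_left (le_of_eq ?_) (by positivity)
    rw [hE]
    congr 1
    rw [hlam]
    field_simp
    ring
  -- the union
  set NB : ℕ → Set (Fin n → Pt) := fun j => {X | SQ X ∧ ¬ ∀ z, ((Finset.univ.filter fun x =>
      tdist (X z) (X x) < Real.sqrt (8 * j) * r).card : ℝ) ≤
        648 * (n * (Real.sqrt (8 * j) * r) ^ 2)} with hNB
  have hsub : {X : Fin n → Pt | ¬ GoodX X r L} ⊆ {X | ¬ SQ X} ∪
      ({X | SQ X ∧ ¬ ∀ u, n * r ^ 2 / 50 ≤ ((ball X r u).card : ℝ)} ∪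
      ({X | SQ X ∧ ¬ ∀ z, ((Finset.univ.filter fun x =>
        tdist (X z) (X x) < r).card : ℝ) ≤ 648 * (n * r ^ 2)} ∪
      ((⋃ j ∈ Finset.Icc 1 L, NB j) ∪
      ({X | ¬ ∀ u, |∑ v ∈ ball X r u, sdiff (co true (X u)) (co true (X v))| ≤ lam} ∪
      {X | ¬ ∀ u, |∑ v ∈ ball X r u, sdiff (co false (X u)) (co false (X v))| ≤ lam})))) := by
    intro X hX
    by_contra hcon
    simp only [Set.mem_union, not_or] at hcon
    obtain ⟨h1, h2, h3, h4, h5, h6⟩ := hcon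
    have h1' : SQ X := not_not.1 h1
    have h2' : ∀ u, n * r ^ 2 / 50 ≤ ((ball X r u).card : ℝ) := by
      by_contra hc
      exact h2 ⟨h1', hc⟩
    have h3' : ∀ z, ((Finset.univ.filter fun x =>
        tdist (X z) (X x) < r).card : ℝ) ≤ 648 * (n * r ^ 2) := by
      by_contra hc
      exact h3 ⟨h1', hc⟩
    have h5' := not_not.1 h5
    have h6' := not_not.1 h6
    refine hX ⟨h1', h2', ?_, ?_, ?_⟩
    · intro u
      refine le_trans (h3' u) (le_of_eq (by ring))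
    · intro j hj hjL z
      by_contra hc
      refine h4 (Set.mem_iUnion₂.2 ⟨j, Finset.mem_Icc.2 ⟨hj, hjL⟩, h1', fun hall => hc ?_⟩)
      refine (hall z).trans (le_of_eq ?_)
      rw [mul_pow, Real.sq_sqrt (by positivity)]
      ring
    · intro i u
      have ha : 0 < n * r ^ 2 / 50 := by positivity
      have hs : |∑ v ∈ ball X r u, sdiff (co i (X u)) (co i (X v))| ≤ lam := by
        cases i
        · exact h6' u
        · exact h5' u
      have := R16_mean X (fun u v => sdiff (co i (X u)) (co i (X v))) u ha (h2' u) hs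
      refine this.trans (le_of_eq ?_)
      rw [hlam, mul_div_assoc, div_self ha.ne', mul_one]
  have hsum : μ (⋃ j ∈ Finset.Icc 1 L, NB j) ≤ ENNReal.ofReal (L * (2 / r ^ 2 * E)) := by
    refine (measure_biUnion_finset_le _ _).trans ?_
    refine (Finset.sum_le_sum fun j hj => hN j (Finset.mem_Icc.1 hj).1 (Finset.mem_Icc.1 hj).2).trans
      ?_
    rw [Finset.sum_const, Nat.card_Icc, nsmul_eq_mul, Nat.add_sub_cancel,
      ENNReal.ofReal_mul (p := (L : ℝ)) (by positivity), ENNReal.ofReal_natCast]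
  refine (measure_mono hsub).trans ?_
  have hz : μ {X | ¬ SQ X} = 0 := R16_sq n
  have e1 : 0 ≤ 32 / r ^ 2 * E := by positivity
  have e2 : 0 ≤ 2 / r ^ 2 * E := by positivity
  have e3 : 0 ≤ L * (2 / r ^ 2 * E) := by positivity
  have e4 : 0 ≤ 2 * n * E := by positivity
  refine (measure_union_le _ _).trans ?_
  rw [hz, zero_add]
  calc _ ≤ ENNReal.ofReal (32 / r ^ 2 * E) + (ENNReal.ofReal (2 / r ^ 2 * E) +
        (ENNReal.ofReal (L * (2 / r ^ 2 * E)) +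
          (ENNReal.ofReal (2 * n * E) + ENNReal.ofReal (2 * n * E)))) := by
        refine (measure_union_le _ _).trans (add_le_add hLo ?_)
        refine (measure_union_le _ _).trans (add_le_add hU ?_)
        refine (measure_union_le _ _).trans (add_le_add hsum ?_)
        exact (measure_union_le _ _).trans (add_le_add (hD true) (hD false))
    _ = ENNReal.ofReal (32 / r ^ 2 * E + (2 / r ^ 2 * E + (L * (2 / r ^ 2 * E) +
          (2 * n * E + 2 * n * E)))) := by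
        rw [← ENNReal.ofReal_add e4 e4, ← ENNReal.ofReal_add e3 (by positivity),
          ← ENNReal.ofReal_add e2 (by positivity), ← ENNReal.ofReal_add e1 (by positivity)]
    _ ≤ _ := by
        refine ENNReal.ofReal_le_ofReal ?_
        have h7 : 34 + 2 * (L : ℝ) ≤ 40 * L := by linarith
        have h8 : (34 + 2 * (L : ℝ)) * (E / r ^ 2) ≤ 40 * L * (E / r ^ 2) :=
          mul_le_mul_of_nonneg_right h7 (by positivity)
        calc 32 / r ^ 2 * E + (2 / r ^ 2 * E + (L * (2 / r ^ 2 * E) + (2 * n * E + 2 * n * E)))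
            = (34 + 2 * (L : ℝ)) * (E / r ^ 2) + 4 * n * E := by ring
          _ ≤ 40 * L * (E / r ^ 2) + 4 * n * E := by linarith
          _ = (40 * L / r ^ 2 + 4 * n) * E := by ring

end EA42
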