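import Pool.Agent.Lib.MP_ea42c6_pr.One.N9

/-!
# R10 — meeting times of two orbits (deterministic)

`mapG_reach` (One/N9): `f^[a] u = f^[b] v` for some `a`, `b`.  If the orbit of `u` is not injective up to
`K` then every `f^[a] u` equals some `f^[a'] u` with `a' ≤ K` (eventually periodic: `f^[i] u = f^[j] u`,
`i < j ≤ K`, gives `f^[a] u = f^[a - (j - i)] u` for `a ≥ j`).  So there are `a, b ≤ K` with
`f^[a] u = f^[b] v`.  Let `i` be the least number such that `f^[i] u = f^[b] v` for some `b` (`Nat.find`), and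
`j` the least `b` for this `i`: `i, j ≤ K`.  If `f^[a] u = f^[a'] u` with `a < a' ≤ i` then
`f^[i - (a' - a)] u = f^[i] u`, against minimality of `i`; the same for `v`.  `f^[a] u ≠ f^[b] v` for
`a < i` by minimality.
-/

namespace EA42

open scoped Classical

theorem R10_inj {V : Type*} (f : V → V) {u : V} {t : ℕ}
    (hlt : ∀ i j, i < j → j ≤ t → f^[i] u ≠ f^[j] u) : OrbInj f u t := by
  intro i hi j hj hij
  rcases lt_trichotomy i j with h1 | h1 | h1
  · exact absurd hij (hlt i j h1 hj)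
  · exact h1
  · exact absurd hij.symm (hlt j i h1 hi)

theorem R10_red {V : Type*} (f : V → V) {u : V} {K : ℕ} (hu : ¬ OrbInj f u K) (a : ℕ) :
    ∃ a' ≤ K, f^[a'] u = f^[a] u := by
  obtain ⟨i, j, hij, hj, hf⟩ : ∃ i j, i < j ∧ j ≤ K ∧ f^[i] u = f^[j] u := by
    by_contra hcon
    refine hu (R10_inj f fun i j hij hj hf => hcon ⟨i, j, hij, hj, hf⟩)
  induction a using Nat.strong_induction_on with
  | _ a ih =>
    by_cases ha : a ≤ K
    · exact ⟨a, ha, rfl⟩
    · obtain ⟨a', ha', h1⟩ := ih (a - j + i) (by omega)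
      refine ⟨a', ha', ?_⟩
      rw [h1, Function.iterate_add_apply, hf, ← Function.iterate_add_apply,
        show a - j + j = a by omega]

theorem meet_exists {V : Type*} (f : V → V) {u v : V} {K : ℕ} (hu : ¬ OrbInj f u K)
    (hv : ¬ OrbInj f v K) (h : (mapG f).Reachable u v) :
    ∃ i ≤ K, ∃ j ≤ K, OrbInj f u i ∧ OrbInj f v j ∧ f^[i] u = f^[j] v ∧
      ∀ a < i, ∀ b ≤ j, f^[a] u ≠ f^[b] v := by
  have hP : ∃ i, ∃ b, f^[i] u = f^[b] v := mapG_reach f h
  set i := Nat.find hP with hi
  have hQ : ∃ b, f^[i] u = f^[b] v := Nat.find_spec hP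
  set j := Nat.find hQ with hj
  have hij : f^[i] u = f^[j] v := Nat.find_spec hQ
  have hmini : ∀ a, (∃ b, f^[a] u = f^[b] v) → i ≤ a := fun a ha => Nat.find_min' hP ha
  have hminj : ∀ b, f^[i] u = f^[b] v → j ≤ b := fun b hb => Nat.find_min' hQ hb
  have hiK : i ≤ K := by
    obtain ⟨a', ha', h1⟩ := R10_red f hu i
    exact (hmini a' ⟨j, by rw [h1, hij]⟩).trans ha'
  have hjK : j ≤ K := by
    obtain ⟨b', hb', h1⟩ := R10_red f hv j
    exact (hminj b' (by rw [h1, hij])).trans hb'
  refine ⟨i, hiK, j, hjK, ?_, ?_, hij, ?_⟩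
  · refine R10_inj f fun a a' haa ha' hf => ?_
    have h1 : f^[i - a' + a] u = f^[i] u := by
      rw [Function.iterate_add_apply, hf, ← Function.iterate_add_apply,
        show i - a' + a' = i by omega]
    have h2 := hmini (i - a' + a) ⟨j, by rw [h1, hij]⟩
    omega
  · refine R10_inj f fun a a' haa ha' hf => ?_
    have h1 : f^[j - a' + a] v = f^[j] v := by
      rw [Function.iterate_add_apply, hf, ← Function.iterate_add_apply,
        show j - a' + a' = j by omega]
    have h2 := hminj (j - a' + a) (by rw [h1, hij])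
    omega
  · intro a ha b _ hab
    have h1 := hmini a ⟨b, hab⟩
    omega

end EA42
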