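import Pool.Agent.Lib.MP_ea42c6_pr.Two.Defs
import Pool.Agent.Lib.MP_ea42c6_pr.One.N7

/-!
# R8 — the orbit of the random map and `saw`

Exactly as `orbit_inj` in One/N7 (same induction, `N7_shift`, `N7_indep`, `indep_orbit`), with the bound
`saw` in place of `(1 - 1/ρ)^K`: if `u ∈ S` the event is empty; `u ∉ S`, `K + 1`: the event is contained in
`⋃_v {f u = v} ∩ {OrbInj f v K, the orbit of v avoids insert u S up to time K}`.
-/

namespace EA42

open scoped Classical

theorem R8_empty {V : Type*} [Fintype V] [DecidableEq V] {B : V → Finset V} :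
    pr (prodW (kerW B)) (∅ : Set (V → V)) = 0 := by
  unfold pr
  simp

theorem orbit_saw {V : Type*} [Fintype V] [DecidableEq V] {B : V → Finset V}
    (hself : ∀ u, u ∈ B u) (K : ℕ) (S : Set V) (u : V) :
    pr (prodW (kerW B)) {f | OrbInj f u K ∧ ∀ i ≤ K, f^[i] u ∉ S} ≤ saw B K S u := by
  have hP := isProb_prodW (fun i => isProb_kerW hself i)
  have hem : ∀ (K : ℕ) (S : Set V) (u : V), u ∈ S →
      pr (prodW (kerW B)) {f | OrbInj f u K ∧ ∀ i ≤ K, f^[i] u ∉ S} = 0 := by
    intro K S u hu
    have h0 : {f : V → V | OrbInj f u K ∧ ∀ i ≤ K, f^[i] u ∉ S} = ∅ := by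
      ext f
      simp only [Set.mem_ofPred_eq, Set.mem_empty_iff_false, iff_false]
      rintro ⟨-, h⟩
      exact h 0 (Nat.zero_le _) hu
    rw [h0]
    exact R8_empty (B := B)
  induction K generalizing S u with
  | zero =>
    by_cases hu : u ∈ S
    · rw [hem 0 S u hu]
      simp [saw, hu]
    · simp only [saw, if_neg hu]
      exact pr_le_one hP _
  | succ K ih =>
    by_cases hu : u ∈ S
    · rw [hem (K + 1) S u hu]
      simp [saw, hu]
    have hsub : {f : V → V | OrbInj f u (K + 1) ∧ ∀ i ≤ K + 1, f^[i] u ∉ S} ⊆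
        {f | ∃ v ∈ (Finset.univ : Finset V), f ∈ ({f | f u = v} ∩
            {f | OrbInj f v K ∧ ∀ i ≤ K, f^[i] v ∉ insert u S})} := by
      rintro f ⟨hinj, hS⟩
      refine ⟨f u, Finset.mem_univ _, rfl, (N7_shift hinj).1, ?_⟩
      intro i hi hmem
      rcases Set.mem_insert_iff.mp hmem with h1 | h1
      · exact (N7_shift hinj).2 i hi h1
      · refine hS (i + 1) (by omega) ?_
        rw [Function.iterate_succ_apply]
        exact h1
    refine (pr_mono hP hsub).trans ((pr_exists_le hP _ _).trans ?_)
    simp only [saw, if_neg hu]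
    refine Finset.sum_le_sum fun v _ => ?_
    rw [N7_indep hself u v]
    · exact mul_le_mul_of_nonneg_left (ih (insert u S) v) ((isProb_kerW hself u).1 v)
    · have key : ∀ f g : V → V, (∀ x, x ≠ u → f x = g x) →
          (OrbInj f v K ∧ ∀ i ≤ K, f^[i] v ∉ insert u S) →
          (OrbInj g v K ∧ ∀ i ≤ K, g^[i] v ∉ insert u S) := by
        rintro f g hfg ⟨hinj, hS⟩
        have hio := indep_orbit u v f g hfg K (fun i hi hu => hS i hi (by
          rw [hu]
          exact Set.mem_insert _ _))
        refine ⟨?_, ?_⟩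
        · intro i hi j hj hij
          rw [← hio i hi, ← hio j hj] at hij
          exact hinj i hi j hj hij
        · intro i hi
          rw [← hio i hi]
          exact hS i hi
      intro f g h
      have h' : ∀ x, x ≠ u → f x = g x := fun x hx => h x (by simpa using hx)
      exact ⟨key f g h', key g f fun x hx => (h' x hx).symm⟩

end EA42
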