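import Pool.Agent.Lib.MP_ea42c6_pr.One.Defs

/-!
# The case `ξ = 1`, sharp radius: definitions used in the proof

All recursions are over the FIRST step of the walk with kernel `kerW B` (uniform member of the ball).
-/

namespace EA42

open MeasureTheory
open scoped Classical ENNReal

noncomputable section

/-- Transition probabilities in `j` steps. -/
def pk {V : Type*} [Fintype V] (B : V → Finset V) : ℕ → V → V → ℝ
  | 0, u, v => if u = v then 1 else 0
  | j + 1, u, v => ∑ x, kerW B u x * pk B j x v

/-- Symmetric balls, all of size between `D` and `κ D`. -/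
structure DReg {V : Type*} (B : V → Finset V) (D κ : ℝ) : Prop where
  sym : SymB B
  pos : 0 < D
  lo : ∀ u, D ≤ ((B u).card : ℝ)
  hi : ∀ u, ((B u).card : ℝ) ≤ κ * D

/-- Probability that the walk from `u` makes `K` steps, all `K + 1` points distinct and not in
`S`. -/
def saw {V : Type*} [Fintype V] (B : V → Finset V) : ℕ → Set V → V → ℝ
  | 0, S, u => if u ∈ S then 0 else 1
  | K + 1, S, u => if u ∈ S then 0 else ∑ v, kerW B u v * saw B K (insert u S) v

/-- Expected number of visits (with multiplicity `c` and own past) in the steps `1, ..., L`. -/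
def ret {V : Type*} [Fintype V] (B : V → Finset V) : ℕ → (V → ℝ) → V → ℝ
  | 0, _, _ => 0
  | L + 1, c, u => ∑ v, kerW B u v *
      ((c v + if v = u then 1 else 0) + ret B L (fun x => c x + if x = u then 1 else 0) v)

/-- Second moment of `a +` (sum of `F` over `j` steps from `u`). -/
def smom {V : Type*} [Fintype V] (B : V → Finset V) (F : V → V → ℝ) : ℕ → V → ℝ → ℝ
  | 0, _, a => a ^ 2
  | j + 1, u, a => ∑ v, kerW B u v * smom B F j v (a + F u v)

/-- Coordinates of a point. -/
def co (i : Bool) (x : Pt) : ℝ := if i then x.1 else x.2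

/-- The properties of the positions which are used. -/
structure GoodX {n : ℕ} (X : Fin n → Pt) (r : ℝ) (L : ℕ) : Prop where
  sq : ∀ u, X u ∈ Set.Icc (0 : ℝ) 1 ×ˢ Set.Icc (0 : ℝ) 1
  lo : ∀ u, n * r ^ 2 / 50 ≤ ((ball X r u).card : ℝ)
  up : ∀ u, ((ball X r u).card : ℝ) ≤ 648 * n * r ^ 2
  near : ∀ j : ℕ, 1 ≤ j → j ≤ L → ∀ z, ((Finset.univ.filter fun x =>
    tdist (X z) (X x) < Real.sqrt (8 * j) * r).card : ℝ) ≤ 648 * (8 * j) * (n * r ^ 2)
  drift : ∀ i u, |meanF (ball X r) (fun u v => sdiff (co i (X u)) (co i (X v))) u| ≤ r / L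

/-- The constant of the return probabilities. -/
def c0 : ℝ := 1 / (4 * 32400 * 259200)

end

end EA42
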