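import Pool.Agent.Lib.MP_ea42c6_pr.Two.R8
import Pool.Agent.Lib.MP_ea42c6_pr.Two.R9
import Pool.Agent.Lib.MP_ea42c6_pr.Two.R10
import Pool.Agent.Lib.MP_ea42c6_pr.S2

/-!
# R11 — no large component if orbits close early

`N = |V|`.  `S2_largest_sq`: `largest² ≤ ∑ u, |{v | Reachable u v}|`, so on the event
`(ε N)² ≤ ∑ u v, [Reachable u v]`; Markov (`pr_markov` with index set `V × V`):
`pr ≤ (∑ u v, pr {Reachable u v})/(ε N)²`.
`{Reachable u v} ⊆ {OrbInj f u K} ∪ {OrbInj f v K} ∪ ⋃_{i,j ≤ K} (meeting event)` (`meet_exists`), the first two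
have probability at most `q` (`orbit_saw`, `S = ∅`), the last at most `∑_{i,j ≤ K} ∑ w, pk i u w * pk j v w`
(`orbit_meet`, `S = ∅`).  Sum over `u`, `v`: `∑ w, (∑ u, pk i u w)(∑ v, pk j v w) ≤ N κ²` (`pk_col`).
-/

namespace EA42

open scoped Classical

private theorem R11_pair {V : Type*} [Fintype V] [DecidableEq V] {B : V → Finset V}
    (hB : SymB B) (K : ℕ) {q : ℝ} (hq : ∀ u, saw B K ∅ u ≤ q) (u v : V) :
    pr (prodW (kerW B)) {f | (mapG f).Reachable u v} ≤
      2 * q + ∑ z ∈ Finset.range (K + 1) ×ˢ Finset.range (K + 1),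
        ∑ w, pk B z.1 u w * pk B z.2 v w := by
  have hP : IsProb (prodW (kerW B)) := isProb_prodW fun u => isProb_kerW hB.self u
  have h1 : ∀ x, pr (prodW (kerW B)) {f | OrbInj f x K} ≤ q := by
    intro x
    refine le_trans (le_of_eq ?_) ((orbit_saw hB.self K ∅ x).trans (hq x))
    congr 1
    ext f
    simp
  set M : ℕ × ℕ → Set (V → V) := fun z => {f | OrbInj f u z.1 ∧ OrbInj f v z.2 ∧
    (∀ a ≤ z.1, f^[a] u ∉ (∅ : Set V)) ∧ (∀ b ≤ z.2, f^[b] v ∉ (∅ : Set V)) ∧
    f^[z.1] u = f^[z.2] v ∧ ∀ a < z.1, ∀ b ≤ z.2, f^[a] u ≠ f^[b] v} with hM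
  have h2 : {f : V → V | (mapG f).Reachable u v} ⊆ ({f | OrbInj f u K} ∪ {f | OrbInj f v K}) ∪
      {f | ∃ z ∈ Finset.range (K + 1) ×ˢ Finset.range (K + 1), f ∈ M z} := by
    intro f hf
    by_cases hu : OrbInj f u K
    · exact Or.inl (Or.inl hu)
    by_cases hv : OrbInj f v K
    · exact Or.inl (Or.inr hv)
    obtain ⟨i, hi, j, hj, h3, h4, h5, h6⟩ := meet_exists f hu hv hf
    refine Or.inr ⟨(i, j), ?_, h3, h4, ?_, ?_, h5, h6⟩
    · rw [Finset.mem_product, Finset.mem_range, Finset.mem_range]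
      constructor
      · show i < K + 1
        omega
      · show j < K + 1
        omega
    · intro a _ h7
      exact h7
    · intro a _ h7
      exact h7
  refine (pr_mono hP h2).trans ((pr_union_le hP _ _).trans ?_)
  refine (add_le_add (pr_union_le hP _ _) (pr_exists_le hP _ _)).trans ?_
  have h3 : ∑ z ∈ Finset.range (K + 1) ×ˢ Finset.range (K + 1), pr (prodW (kerW B)) (M z) ≤
      ∑ z ∈ Finset.range (K + 1) ×ˢ Finset.range (K + 1), ∑ w, pk B z.1 u w * pk B z.2 v w :=
    Finset.sum_le_sum fun z _ => orbit_meet hB.self z.1 z.2 ∅ u v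
  linarith [h1 u, h1 v]

theorem abs_bound {V : Type*} [Fintype V] [DecidableEq V] [Nonempty V] {B : V → Finset V}
    {D κ : ℝ} (h : DReg B D κ) (K : ℕ) {q ε : ℝ} (hq : ∀ u, saw B K ∅ u ≤ q) (hε : 0 < ε) :
    pr (prodW (kerW B)) {f | ε * (Fintype.card V : ℝ) ≤ (largest (mapG f) : ℝ)} ≤
      (2 * q + κ ^ 2 * ((K : ℝ) + 1) ^ 2 / (Fintype.card V : ℝ)) / ε ^ 2 := by
  have hP : IsProb (prodW (kerW B)) := isProb_prodW fun u => isProb_kerW h.sym.self u
  set N : ℝ := (Fintype.card V : ℝ) with hN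
  have hN0 : 0 < N := by
    rw [hN]
    exact_mod_cast (Fintype.card_pos : 0 < Fintype.card V)
  have hk : 0 ≤ κ := zero_le_one.trans (kappa_one h)
  set E : V × V → Set (V → V) := fun z => {f | (mapG f).Reachable z.1 z.2} with hE
  have h5 : ∀ f : V → V, (@Finset.filter (V × V) (fun z => f ∈ E z)
      (fun z => Classical.propDecidable _) Finset.univ).card =
      ∑ u : V, (@Finset.filter V (fun v => (mapG f).Reachable u v)
        (fun v => Classical.propDecidable _) Finset.univ).card := by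
    intro f
    simp only [Finset.card_filter, Fintype.sum_prod_type]
    rfl
  have hmk := pr_markov hP Finset.univ E ((ε * N) ^ 2) (by positivity)
  have h2 : pr (prodW (kerW B)) {f | ε * N ≤ (largest (mapG f) : ℝ)} ≤
      (∑ z : V × V, pr (prodW (kerW B)) (E z)) / (ε * N) ^ 2 := by
    refine (pr_mono hP ?_).trans hmk
    intro f hf
    have h2 : ε * N ≤ (largest (mapG f) : ℝ) := hf
    have h3 : (ε * N) ^ 2 ≤ (largest (mapG f) : ℝ) ^ 2 := pow_le_pow_left₀ (by positivity) h2 2
    have h4 := S2_largest_sq (mapG f)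
    have h6 : (largest (mapG f)) ^ 2 ≤ (@Finset.filter (V × V) (fun z => f ∈ E z)
      (fun z => Classical.propDecidable _) Finset.univ).card := by
      rw [h5]
      refine h4.trans (le_of_eq (Finset.sum_congr rfl fun u _ => ?_))
      exact congrArg Finset.card (Finset.ext fun v => by simp only [Finset.mem_filter])
    have h7 : ((largest (mapG f) : ℕ) : ℝ) ^ 2 ≤ (((@Finset.filter (V × V) (fun z => f ∈ E z)
      (fun z => Classical.propDecidable _) Finset.univ).card : ℕ) : ℝ) := by exact_mod_cast h6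
    exact h3.trans h7
  have h3 : ∑ z : V × V, pr (prodW (kerW B)) (E z) ≤
      2 * q * N ^ 2 + κ ^ 2 * ((K : ℝ) + 1) ^ 2 * N := by
    have h4 : ∑ z : V × V, pr (prodW (kerW B)) (E z) ≤ ∑ u : V, ∑ v : V,
        (2 * q + ∑ z ∈ Finset.range (K + 1) ×ˢ Finset.range (K + 1),
          ∑ w, pk B z.1 u w * pk B z.2 v w) := by
      rw [Fintype.sum_prod_type]
      exact Finset.sum_le_sum fun u _ => Finset.sum_le_sum fun v _ => R11_pair h.sym K hq u v
    refine h4.trans ?_
    have h5 : ∑ u : V, ∑ v : V, (2 * q + ∑ z ∈ Finset.range (K + 1) ×ˢ Finset.range (K + 1),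
          ∑ w, pk B z.1 u w * pk B z.2 v w) = 2 * q * N ^ 2 +
        ∑ z ∈ Finset.range (K + 1) ×ˢ Finset.range (K + 1),
          ∑ w, (∑ u, pk B z.1 u w) * ∑ v, pk B z.2 v w := by
      have h6 : ∀ u : V, ∑ v : V, (2 * q + ∑ z ∈ Finset.range (K + 1) ×ˢ Finset.range (K + 1),
          ∑ w, pk B z.1 u w * pk B z.2 v w) = N * (2 * q) +
          ∑ z ∈ Finset.range (K + 1) ×ˢ Finset.range (K + 1),
            ∑ w, pk B z.1 u w * ∑ v, pk B z.2 v w := by
        intro u
        rw [Finset.sum_add_distrib, Finset.sum_const, Finset.card_univ, nsmul_eq_mul]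
        congr 1
        rw [Finset.sum_comm]
        refine Finset.sum_congr rfl fun z _ => ?_
        rw [Finset.sum_comm]
        exact Finset.sum_congr rfl fun w _ => (Finset.mul_sum _ _ _).symm
      rw [Finset.sum_congr rfl fun u _ => h6 u, Finset.sum_add_distrib, Finset.sum_const,
        Finset.card_univ, nsmul_eq_mul]
      congr 1
      · rw [← hN]
        ring
      · rw [Finset.sum_comm]
        refine Finset.sum_congr rfl fun z _ => ?_
        rw [Finset.sum_comm]
        exact Finset.sum_congr rfl fun w _ => (Finset.sum_mul _ _ _).symm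
    rw [h5]
    refine add_le_add le_rfl ?_
    have h7 : ∀ z ∈ Finset.range (K + 1) ×ˢ Finset.range (K + 1),
        ∑ w, (∑ u, pk B z.1 u w) * ∑ v, pk B z.2 v w ≤ N * κ ^ 2 := by
      intro z _
      calc ∑ w, (∑ u, pk B z.1 u w) * ∑ v, pk B z.2 v w ≤ ∑ w : V, κ * κ := by
            refine Finset.sum_le_sum fun w _ => ?_
            exact mul_le_mul (pk_col h z.1 w) (pk_col h z.2 w)
              (Finset.sum_nonneg fun v _ => pk_nonneg _ _ _) hk
        _ = N * κ ^ 2 := by
            rw [Finset.sum_const, Finset.card_univ, nsmul_eq_mul]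
            ring
    refine (Finset.sum_le_sum h7).trans (le_of_eq ?_)
    rw [Finset.sum_const, Finset.card_product, Finset.card_range, nsmul_eq_mul]
    push_cast
    ring
  refine h2.trans ((div_le_div_of_nonneg_right h3 (by positivity)).trans (le_of_eq ?_))
  field_simp

end EA42
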