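import Pool.Agent.Lib.MP_ea42c6_pr.Two.R1

/-!
# R7 — the probabilities `saw`

All by induction on the number of steps, for all `S`, `u`.  `saw_block`: `L = 0`: if `u ∈ S` then
`saw (0 + K) S u = 0` (`saw_of_mem`), otherwise `saw K S u ≤ saw K ∅ u ≤ q` (`saw_anti`).
`saw_pow`: induction on `m` with `saw_block`.
-/

namespace EA42

open scoped Classical

variable {V : Type*} [Fintype V] {B : V → Finset V}

private theorem R7_zero (S : Set V) (u : V) : saw B 0 S u = if u ∈ S then 0 else 1 := rfl

private theorem R7_succ (K : ℕ) (S : Set V) (u : V) :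
    saw B (K + 1) S u = if u ∈ S then 0 else ∑ v, kerW B u v * saw B K (insert u S) v := rfl

theorem saw_nonneg (K : ℕ) (S : Set V) (u : V) : 0 ≤ saw B K S u := by
  induction K generalizing S u with
  | zero =>
    rw [R7_zero]
    split_ifs
    · exact le_rfl
    · exact zero_le_one
  | succ K ih =>
    rw [R7_succ]
    split_ifs
    · exact le_rfl
    · exact Finset.sum_nonneg fun v _ => mul_nonneg (kerW_nonneg u v) (ih _ v)

theorem saw_le_one (hself : ∀ u, u ∈ B u) (K : ℕ) (S : Set V) (u : V) : saw B K S u ≤ 1 := by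
  induction K generalizing S u with
  | zero =>
    rw [R7_zero]
    split_ifs
    · exact zero_le_one
    · exact le_rfl
  | succ K ih =>
    rw [R7_succ]
    split_ifs
    · exact zero_le_one
    · calc ∑ v, kerW B u v * saw B K (insert u S) v ≤ ∑ v, kerW B u v * 1 :=
            Finset.sum_le_sum fun v _ => mul_le_mul_of_nonneg_left (ih _ v) (kerW_nonneg u v)
        _ = 1 := by
            rw [← Finset.sum_mul, (isProb_kerW hself u).2, one_mul]

theorem saw_of_mem (K : ℕ) {S : Set V} {u : V} (hu : u ∈ S) : saw B K S u = 0 := by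
  cases K with
  | zero => rw [R7_zero, if_pos hu]
  | succ K => rw [R7_succ, if_pos hu]

theorem saw_anti (K : ℕ) {S T : Set V} (hST : S ⊆ T) (u : V) : saw B K T u ≤ saw B K S u := by
  induction K generalizing S T u with
  | zero =>
    by_cases hT : u ∈ T
    · rw [saw_of_mem 0 hT]
      exact saw_nonneg 0 S u
    · rw [R7_zero, R7_zero, if_neg hT, if_neg fun h => hT (hST h)]
  | succ K ih =>
    by_cases hT : u ∈ T
    · rw [saw_of_mem (K + 1) hT]
      exact saw_nonneg (K + 1) S u
    · rw [R7_succ, R7_succ, if_neg hT, if_neg fun h => hT (hST h)]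
      exact Finset.sum_le_sum fun v _ =>
        mul_le_mul_of_nonneg_left (ih (Set.insert_subset_insert hST) v) (kerW_nonneg u v)

theorem saw_block {K : ℕ} {q : ℝ} (hq : ∀ v, saw B K ∅ v ≤ q) (L : ℕ) (S : Set V) (u : V) :
    saw B (L + K) S u ≤ saw B L S u * q := by
  induction L generalizing S u with
  | zero =>
    rw [Nat.zero_add]
    by_cases hS : u ∈ S
    · rw [saw_of_mem K hS, saw_of_mem 0 hS, zero_mul]
    · rw [R7_zero, if_neg hS, one_mul]
      exact (saw_anti K (Set.empty_subset S) u).trans (hq u)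
  | succ L ih =>
    have h1 : L + 1 + K = (L + K) + 1 := by omega
    rw [h1]
    by_cases hS : u ∈ S
    · rw [saw_of_mem _ hS, saw_of_mem _ hS, zero_mul]
    · rw [R7_succ, R7_succ, if_neg hS, if_neg hS, Finset.sum_mul]
      refine Finset.sum_le_sum fun v _ => ?_
      rw [mul_assoc]
      exact mul_le_mul_of_nonneg_left (ih _ v) (kerW_nonneg u v)

theorem saw_pow (hself : ∀ u, u ∈ B u) {L : ℕ} {q : ℝ} (hq0 : 0 ≤ q)
    (hq : ∀ v, saw B L ∅ v ≤ q) (m : ℕ) (u : V) : saw B (m * L) ∅ u ≤ q ^ m := by
  induction m with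
  | zero =>
    rw [Nat.zero_mul, pow_zero]
    exact saw_le_one hself 0 ∅ u
  | succ m ih =>
    rw [Nat.succ_mul, pow_succ]
    exact (saw_block hq (m * L) ∅ u).trans (mul_le_mul_of_nonneg_right ih hq0)

end EA42
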