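import Pool.Agent.Lib.MP_ea42c6_pr.Two.R6
import Pool.Agent.Lib.MP_ea42c6_pr.Two.R7

/-!
# R12 — decay of `saw` from return probabilities
-/

namespace EA42

open scoped Classical

private theorem R12_harm (n : ℕ) :
    Real.log ((n : ℝ) + 1) ≤ ∑ j ∈ Finset.Icc 1 n, ((j : ℝ))⁻¹ := by
  have h1 := log_add_one_le_harmonic n
  have h2 : ((harmonic n : ℚ) : ℝ) = ∑ j ∈ Finset.Icc 1 n, ((j : ℝ))⁻¹ := by
    rw [harmonic_eq_sum_Icc]
    push_cast
    rfl
  rw [h2] at h1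
  push_cast at h1
  exact h1

private theorem R12_sum {L : ℕ} {C : ℝ} (hC : 0 ≤ C) (a : ℕ → ℝ) (ha0 : ∀ m, 0 ≤ a m)
    (ha : ∀ j : ℕ, 1 ≤ j → a (2 * j) = C * ((j : ℝ))⁻¹) (hL : 4 ≤ L) :
    (L : ℝ) / 2 * (C * Real.log ((L : ℝ) / 4)) ≤
      ∑ i ∈ Finset.Icc 1 L, ∑ m ∈ Finset.Icc 1 i, a m := by
  have hL' : (4 : ℝ) ≤ L := by exact_mod_cast hL
  -- inner sums
  have hin : ∀ i : ℕ, C * Real.log (((i / 2 : ℕ) : ℝ) + 1) ≤ ∑ m ∈ Finset.Icc 1 i, a m := by
    intro i
    calc C * Real.log (((i / 2 : ℕ) : ℝ) + 1) ≤ C * ∑ j ∈ Finset.Icc 1 (i / 2), ((j : ℝ))⁻¹ :=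
          mul_le_mul_of_nonneg_left (R12_harm _) hC
      _ = ∑ j ∈ Finset.Icc 1 (i / 2), a (2 * j) := by
          rw [Finset.mul_sum]
          refine Finset.sum_congr rfl fun j hj => ?_
          rw [ha j (Finset.mem_Icc.mp hj).1]
      _ = ∑ m ∈ (Finset.Icc 1 (i / 2)).image (fun j => 2 * j), a m := by
          rw [Finset.sum_image]
          intro x _ y _ h
          have h' : 2 * x = 2 * y := h
          omega
      _ ≤ ∑ m ∈ Finset.Icc 1 i, a m := by
          refine Finset.sum_le_sum_of_subset_of_nonneg ?_ fun m _ _ => ha0 m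
          intro m hm
          obtain ⟨j, hj, rfl⟩ := Finset.mem_image.mp hm
          rw [Finset.mem_Icc] at hj ⊢
          omega
  -- the upper half
  have hsub : Finset.Icc ((L + 1) / 2) L ⊆ Finset.Icc 1 L := by
    intro i hi
    rw [Finset.mem_Icc] at hi ⊢
    omega
  have hlog : 0 ≤ Real.log ((L : ℝ) / 4) := Real.log_nonneg (by linarith)
  calc (L : ℝ) / 2 * (C * Real.log ((L : ℝ) / 4))
      ≤ ((Finset.Icc ((L + 1) / 2) L).card : ℝ) * (C * Real.log ((L : ℝ) / 4)) := by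
        refine mul_le_mul_of_nonneg_right ?_ (mul_nonneg hC hlog)
        rw [Nat.card_Icc, div_le_iff₀ (by norm_num : (0 : ℝ) < 2)]
        have : L ≤ (L + 1 - (L + 1) / 2) * 2 := by omega
        exact_mod_cast this
    _ = ∑ _i ∈ Finset.Icc ((L + 1) / 2) L, C * Real.log ((L : ℝ) / 4) := by
        rw [Finset.sum_const, nsmul_eq_mul]
    _ ≤ ∑ i ∈ Finset.Icc ((L + 1) / 2) L, ∑ m ∈ Finset.Icc 1 i, a m := by
        refine Finset.sum_le_sum fun i hi => ?_
        refine le_trans ?_ (hin i)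
        refine mul_le_mul_of_nonneg_left ?_ hC
        refine Real.log_le_log (by linarith) ?_
        rw [Finset.mem_Icc] at hi
        rw [div_le_iff₀ (by norm_num : (0 : ℝ) < 4)]
        have : L ≤ (i / 2 + 1) * 4 := by omega
        exact_mod_cast this
    _ ≤ ∑ i ∈ Finset.Icc 1 L, ∑ m ∈ Finset.Icc 1 i, a m := by
        refine Finset.sum_le_sum_of_subset_of_nonneg hsub fun i _ _ => ?_
        exact Finset.sum_nonneg fun m _ => ha0 m

theorem saw_decay {V : Type*} [Fintype V] {B : V → Finset V} {D κ : ℝ} (h : DReg B D κ)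
    {L : ℕ} (hL : 4 ≤ L) (hLD : (L : ℝ) ^ 2 ≤ D) {c : ℝ} (hc : 0 < c)
    (hret : ∀ j : ℕ, 1 ≤ j → 2 * j ≤ L → ∀ v, c / (D * j) ≤ pk B (2 * j) v v) (m : ℕ) (u : V) :
    saw B (m * L) ∅ u ≤
      Real.exp (-((m : ℝ) * L * c * Real.log ((L : ℝ) / 4) / (4 * D))) := by
  have hD := h.pos
  have hself := h.sym.self
  set a : ℕ → ℝ := fun m => if m % 2 = 0 ∧ 0 < m then c / D * (((m / 2 : ℕ) : ℝ))⁻¹ else 0 with ha
  have ha0 : ∀ m, 0 ≤ a m := by
    intro m
    rw [ha]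
    dsimp only
    split_ifs
    · positivity
    · exact le_refl 0
  have ha2 : ∀ j : ℕ, 1 ≤ j → a (2 * j) = c / D * ((j : ℝ))⁻¹ := by
    intro j hj
    rw [ha]
    dsimp only
    rw [if_pos ⟨by omega, by omega⟩]
    congr 3
    omega
  have hak : ∀ m, 1 ≤ m → m ≤ L → ∀ v, a m ≤ pk B m v v := by
    intro m hm hmL v
    by_cases he : m % 2 = 0 ∧ 0 < m
    · obtain ⟨j, rfl⟩ : ∃ j, m = 2 * j := ⟨m / 2, by omega⟩
      rw [ha2 j (by omega)]
      have := hret j (by omega) hmL v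
      refine le_trans (le_of_eq ?_) this
      rw [div_mul_eq_div_div, div_eq_mul_inv (c / D)]
    · rw [ha]
      dsimp only
      rw [if_neg he]
      exact pk_nonneg _ _ _
  have hbase : ∀ v, saw B L ∅ v ≤ Real.exp (-((L : ℝ) * c * Real.log ((L : ℝ) / 4) / (4 * D))) := by
    intro v
    have h1 := first_coinc h (L₀ := L) hLD L ∅ (by simp) v (Finset.notMem_empty v)
    have h2 := ret_ge hself a L hak (fun x => if x ∈ (∅ : Finset V) then 1 else 0)
      (fun x => by split_ifs <;> norm_num) v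
    have h3 := R12_sum (C := c / D) (by positivity) a ha0 ha2 hL
    rw [Finset.coe_empty] at h1
    have h4 : (L : ℝ) / 2 * (c / D * Real.log ((L : ℝ) / 4)) ≤ 2 * (1 - saw B L ∅ v) :=
      h3.trans (h2.trans h1)
    have h5 : saw B L ∅ v ≤ -((L : ℝ) * c * Real.log ((L : ℝ) / 4) / (4 * D)) + 1 := by
      have e : (L : ℝ) / 2 * (c / D * Real.log ((L : ℝ) / 4)) =
          2 * ((L : ℝ) * c * Real.log ((L : ℝ) / 4) / (4 * D)) := by
        field_simp
        ring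
      rw [e] at h4
      linarith
    exact h5.trans (Real.add_one_le_exp _)
  have hpow := saw_pow hself (Real.exp_nonneg _) hbase m u
  refine hpow.trans (le_of_eq ?_)
  rw [← Real.exp_nat_mul]
  congr 1
  ring

end EA42
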