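import Pool.Agent.Lib.MP_ea42c6_pr.Two.Defs
import Pool.Agent.Lib.MP_ea42c6_pr.One.N5
import Pool.Agent.Lib.MP_ea42c6_pr.S1a

/-!
# R13 — exponential moment of one displacement

`ψ y = if tdist x y < r then sdiff (co i x) (co i y) else 0`; `|ψ| ≤ r` for `y` in the square
(`abs_sdiff`, `cdist ≤ tdist`).  `unif` is Lebesgue measure restricted to the unit square.
`psi_mean`: `∫ ψ = 0`.  `i = true`: for fixed `y.2` the function of `y.1` is `G (sdiff x.1 y.1)` with
`G s = if s² + c² < r² then s else 0`, `c = cdist x.2 y.2` (`cdist = |sdiff|`), and `y ↦ sdiff x.1 y =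
(y - x.1) - round (y - x.1)` is periodic with period 1, so the integral over `[0,1]` is the integral
over `[x.1 - 1/2, x.1 + 1/2]` (`Function.Periodic.intervalIntegral_add_eq`), that is of `G (t - round t)`
over `[-1/2, 1/2]`; `round t = 0` in the interior; `G` is odd.  `i = false`: the same with the
coordinates exchanged.
`psi_mgf`: `exp s ≤ 1 + s + s²` for `|s| ≤ 1` (`Real.exp_bound'`-type or `Real.abs_exp_sub_one_sub_id_le`),
so `∫ exp (θ ψ) ≤ 1 + 0 + θ² r² unif {tdist x y < r} ≤ 1 + 16 θ² r⁴ ≤ exp (16 θ² r⁴)` (`unif_ball`).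
-/

namespace EA42

open MeasureTheory
open scoped Classical ENNReal

theorem R13_meas_co (i : Bool) : Measurable (co i) := by
  cases i
  · have : co false = Prod.snd := by
      funext x
      simp [co]
    rw [this]
    exact measurable_snd
  · have : co true = Prod.fst := by
      funext x
      simp [co]
    rw [this]
    exact measurable_fst

theorem R13_meas_sdiff (a : ℝ) : Measurable fun y : ℝ => sdiff a y := by
  unfold sdiff
  have h : Measurable fun y : ℝ => y - a := measurable_id.sub_const a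
  refine h.sub ?_
  have h2 : Measurable fun y : ℝ => ⌊y - a + 1 / 2⌋ := Int.measurable_floor.comp (h.add_const _)
  have h3 : (fun y : ℝ => ((round (y - a) : ℤ) : ℝ)) = (fun k : ℤ => (k : ℝ)) ∘
      fun y : ℝ => ⌊y - a + 1 / 2⌋ := by
    funext y
    simp only [Function.comp, round_eq]
  rw [h3]
  exact (measurable_of_countable _).comp h2

theorem psi_meas (i : Bool) (x : Pt) (r : ℝ) :
    Measurable fun y : Pt => if tdist x y < r then sdiff (co i x) (co i y) else 0 := by
  refine Measurable.ite ?_ ?_ measurable_const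
  · exact measurableSet_lt (measurable_tdist.comp (measurable_const.prodMk measurable_id))
      measurable_const
  · exact (R13_meas_sdiff (co i x)).comp (R13_meas_co i)

theorem R13_bound (i : Bool) (x : Pt) (r : ℝ) (y : Pt) :
    |if tdist x y < r then sdiff (co i x) (co i y) else 0| ≤ 1 / 2 := by
  split_ifs
  · unfold sdiff
    exact abs_sub_round _
  · simp

theorem R13_int (i : Bool) (x : Pt) (r : ℝ) :
    Integrable (fun y : Pt => if tdist x y < r then sdiff (co i x) (co i y) else 0) unif :=
  Integrable.of_bound (psi_meas i x r).aestronglyMeasurable (1 / 2)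
    (Filter.Eventually.of_forall fun y => by
      rw [Real.norm_eq_abs]
      exact R13_bound i x r y)

/-- The one dimensional integral. -/
theorem R13_odd (a c r : ℝ) :
    ∫ y in Set.Icc (0 : ℝ) 1, (if Real.sqrt (sdiff a y ^ 2 + c) < r then sdiff a y else 0) = 0 := by
  set g : ℝ → ℝ := fun t => if Real.sqrt ((t - (round t : ℝ)) ^ 2 + c) < r then
    (t - (round t : ℝ)) else 0 with hg
  have hper : Function.Periodic g 1 := by
    intro t
    have h : ((round (t + 1) : ℤ) : ℝ) = (round t : ℝ) + 1 := by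
      rw [round_add_one]
      push_cast
      ring
    simp only [hg, h]
    have h2 : t + 1 - ((round t : ℝ) + 1) = t - (round t : ℝ) := by ring
    rw [h2]
  have e1 : ∫ y in Set.Icc (0 : ℝ) 1, (if Real.sqrt (sdiff a y ^ 2 + c) < r then sdiff a y else 0) =
      ∫ y in (0 : ℝ)..1, g (y - a) := by
    rw [integral_Icc_eq_integral_Ioc, ← intervalIntegral.integral_of_le (by norm_num)]
    rfl
  rw [e1, intervalIntegral.integral_comp_sub_right (fun t => g t) a]
  have e2 : (1 : ℝ) - a = (0 - a) + 1 := by ring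
  rw [e2, hper.intervalIntegral_add_eq (0 - a) (-(1 / 2))]
  have e3 : (-(1 / 2) : ℝ) + 1 = 1 / 2 := by norm_num
  rw [e3]
  have hodd : ∫ t in (-(1 / 2) : ℝ)..(1 / 2), g (-t) = ∫ t in (-(1 / 2) : ℝ)..(1 / 2), -g t := by
    rw [intervalIntegral.integral_of_le (by norm_num), intervalIntegral.integral_of_le (by norm_num),
      integral_Ioc_eq_integral_Ioo, integral_Ioc_eq_integral_Ioo]
    refine setIntegral_congr_fun measurableSet_Ioo fun t ht => ?_
    have h0 : round t = 0 := by
      rw [round_eq_zero_iff]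
      exact ⟨ht.1.le, ht.2⟩
    have h1 : round (-t) = 0 := by
      rw [round_eq_zero_iff]
      exact ⟨by linarith [ht.2], by linarith [ht.1]⟩
    simp only [hg, h0, h1, Int.cast_zero, sub_zero, neg_sq]
    split_ifs
    · rfl
    · simp
  rw [intervalIntegral.integral_comp_neg, neg_neg, intervalIntegral.integral_neg] at hodd
  linarith

theorem psi_mean (i : Bool) {r : ℝ} (hr : 0 < r) (x : Pt)
    (hx : x ∈ Set.Icc (0 : ℝ) 1 ×ˢ Set.Icc (0 : ℝ) 1) :
    ∫ y, (if tdist x y < r then sdiff (co i x) (co i y) else 0) ∂unif = 0 := by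
  have hint := R13_int i x r
  have hu : unif = ((volume : Measure ℝ).restrict (Set.Icc 0 1)).prod
      ((volume : Measure ℝ).restrict (Set.Icc 0 1)) := by
    unfold unif
    rw [Measure.prod_restrict, Measure.volume_eq_prod]
  rw [hu] at hint ⊢
  cases i with
  | true =>
    rw [integral_prod_symm _ hint]
    have : ∀ y2 : ℝ, ∫ y1 in Set.Icc (0 : ℝ) 1,
        (if tdist x (y1, y2) < r then sdiff (co true x) (co true (y1, y2)) else 0) = 0 := by
      intro y2
      refine Eq.trans ?_ (R13_odd x.1 (cdist x.2 y2 ^ 2) r)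
      refine setIntegral_congr_fun measurableSet_Icc fun y1 hy1 => ?_
      have h1 : sdiff x.1 y1 ^ 2 = cdist x.1 y1 ^ 2 := by
        rw [← abs_sdiff hx.1 hy1, sq_abs]
      simp only [tdist, co, if_true, h1]
    simp only [this, integral_zero]
  | false =>
    rw [integral_prod _ hint]
    have : ∀ y1 : ℝ, ∫ y2 in Set.Icc (0 : ℝ) 1,
        (if tdist x (y1, y2) < r then sdiff (co false x) (co false (y1, y2)) else 0) = 0 := by
      intro y1
      refine Eq.trans ?_ (R13_odd x.2 (cdist x.1 y1 ^ 2) r)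
      refine setIntegral_congr_fun measurableSet_Icc fun y2 hy2 => ?_
      have h1 : sdiff x.2 y2 ^ 2 = cdist x.2 y2 ^ 2 := by
        rw [← abs_sdiff hx.2 hy2, sq_abs]
      simp only [tdist, co, Bool.false_eq_true, if_false, h1, add_comm (cdist x.2 y2 ^ 2)]
    simp only [this, integral_zero]

theorem R13_abs_le (i : Bool) {r : ℝ} (hr : 0 < r) (x y : Pt)
    (hx : x ∈ Set.Icc (0 : ℝ) 1 ×ˢ Set.Icc (0 : ℝ) 1)
    (hy : y ∈ Set.Icc (0 : ℝ) 1 ×ˢ Set.Icc (0 : ℝ) 1) :
    |if tdist x y < r then sdiff (co i x) (co i y) else 0| ≤ r := by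
  split_ifs with h
  · refine le_trans ?_ h.le
    cases i with
    | true =>
      simp only [co, if_true]
      rw [abs_sdiff hx.1 hy.1]
      unfold tdist
      exact Real.le_sqrt_of_sq_le (by nlinarith [sq_nonneg (cdist x.2 y.2)])
    | false =>
      simp only [co, Bool.false_eq_true, if_false]
      rw [abs_sdiff hx.2 hy.2]
      unfold tdist
      exact Real.le_sqrt_of_sq_le (by nlinarith [sq_nonneg (cdist x.1 y.1)])
  · simpa using hr.le

theorem psi_mgf (i : Bool) {r θ : ℝ} (hr : 0 < r) (hθ : |θ| * r ≤ 1) (x : Pt)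
    (hx : x ∈ Set.Icc (0 : ℝ) 1 ×ˢ Set.Icc (0 : ℝ) 1) :
    ∫⁻ y, ENNReal.ofReal (Real.exp
        (θ * (if tdist x y < r then sdiff (co i x) (co i y) else 0))) ∂unif ≤
      ENNReal.ofReal (Real.exp (16 * θ ^ 2 * r ^ 4)) := by
  set ψ : Pt → ℝ := fun y => if tdist x y < r then sdiff (co i x) (co i y) else 0 with hψ
  have hm : Measurable ψ := psi_meas i x r
  have hset : MeasurableSet {y : Pt | tdist x y < r} :=
    measurableSet_lt (measurable_tdist.comp (measurable_const.prodMk measurable_id))
      measurable_const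
  have hint : Integrable ψ unif := R13_int i x r
  have hexp : Integrable (fun y => Real.exp (θ * ψ y)) unif := by
    refine Integrable.of_bound (Real.measurable_exp.comp (hm.const_mul θ)).aestronglyMeasurable
      (Real.exp (|θ| * (1 / 2))) (Filter.Eventually.of_forall fun y => ?_)
    rw [Real.norm_eq_abs, abs_of_pos (Real.exp_pos _)]
    refine Real.exp_le_exp.2 ?_
    calc θ * ψ y ≤ |θ * ψ y| := le_abs_self _
      _ = |θ| * |ψ y| := abs_mul _ _
      _ ≤ |θ| * (1 / 2) := mul_le_mul_of_nonneg_left (R13_bound i x r y) (abs_nonneg _)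
  have hind : Integrable ({y : Pt | tdist x y < r}.indicator fun _ => θ ^ 2 * r ^ 2) unif :=
    (integrable_const _).indicator hset
  have hae : ∀ᵐ y ∂unif, y ∈ Set.Icc (0 : ℝ) 1 ×ˢ Set.Icc (0 : ℝ) 1 := by
    unfold unif
    exact ae_restrict_mem (measurableSet_Icc.prod measurableSet_Icc)
  have hle : ∫ y, Real.exp (θ * ψ y) ∂unif ≤
      ∫ y, (1 + θ * ψ y + {y : Pt | tdist x y < r}.indicator (fun _ => θ ^ 2 * r ^ 2) y) ∂unif := by
    refine integral_mono_ae hexp (((integrable_const _).add (hint.const_mul θ)).add hind) ?_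
    filter_upwards [hae] with y hy
    have hψr : |ψ y| ≤ r := R13_abs_le i hr x y hx hy
    have h1 : |θ * ψ y| ≤ 1 := by
      rw [abs_mul]
      exact (mul_le_mul_of_nonneg_left hψr (abs_nonneg _)).trans hθ
    have h2 := Real.abs_exp_sub_one_sub_id_le h1
    have h3 := (abs_le.1 h2).2
    have h4 : (θ * ψ y) ^ 2 ≤ {y : Pt | tdist x y < r}.indicator (fun _ => θ ^ 2 * r ^ 2) y := by
      by_cases h : tdist x y < r
      · rw [Set.indicator_of_mem (show y ∈ {y : Pt | tdist x y < r} from h), mul_pow]
        refine mul_le_mul_of_nonneg_left ?_ (sq_nonneg θ)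
        rw [← sq_abs]
        exact pow_le_pow_left₀ (abs_nonneg _) hψr 2
      · rw [Set.indicator_of_notMem (show y ∉ {y : Pt | tdist x y < r} from h)]
        have : ψ y = 0 := by
          simp only [hψ, if_neg h]
        rw [this]
        simp
    linarith
  have hval : ∫ y, (1 + θ * ψ y + {y : Pt | tdist x y < r}.indicator (fun _ => θ ^ 2 * r ^ 2) y)
      ∂unif = 1 + (unif {y : Pt | tdist x y < r}).toReal * (θ ^ 2 * r ^ 2) := by
    have hi1 : Integrable (fun y => (1 : ℝ) + θ * ψ y) unif :=
      (integrable_const _).add (hint.const_mul θ)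
    rw [integral_add hi1 hind,
      integral_add (integrable_const _) (hint.const_mul θ), integral_const_mul,
      psi_mean i hr x hx, integral_indicator hset, setIntegral_const, integral_const]
    simp [Measure.real]
  have hball : (unif {y : Pt | tdist x y < r}).toReal ≤ 16 * r ^ 2 := by
    have := unif_ball hr.le x hx
    exact ENNReal.toReal_le_of_le_ofReal (by positivity) this
  rw [← ofReal_integral_eq_lintegral_ofReal hexp
    (Filter.Eventually.of_forall fun y => (Real.exp_pos _).le)]
  refine ENNReal.ofReal_le_ofReal (hle.trans ?_)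
  rw [hval]
  have h5 : (unif {y : Pt | tdist x y < r}).toReal * (θ ^ 2 * r ^ 2) ≤ 16 * θ ^ 2 * r ^ 4 := by
    have := mul_le_mul_of_nonneg_right hball (show (0 : ℝ) ≤ θ ^ 2 * r ^ 2 by positivity)
    calc _ ≤ 16 * r ^ 2 * (θ ^ 2 * r ^ 2) := this
      _ = 16 * θ ^ 2 * r ^ 4 := by ring
  have h6 := Real.add_one_le_exp (16 * θ ^ 2 * r ^ 4)
  linarith

end EA42
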