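import Pool.Agent.Lib.MP_ea42c6_pr.Two.R13
import Pool.Agent.Lib.MP_ea42c6_pr.M1

/-!
# R14 — the drift is small at every vertex
-/

namespace EA42

open MeasureTheory
open scoped Classical ENNReal

private theorem R14_round : Measurable (round : ℝ → ℤ) := by
  have h : (round : ℝ → ℤ) = fun x => ⌊x + 1 / 2⌋ := by
    funext x
    exact round_eq x
  rw [h]
  exact Int.measurable_floor.comp (measurable_id.add_const _)

private theorem R14_co (i : Bool) : Measurable (co i) := by
  cases i
  · exact measurable_snd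
  · exact measurable_fst

private noncomputable def R14_psi (i : Bool) (r : ℝ) (x y : Pt) : ℝ :=
  if tdist x y < r then sdiff (co i x) (co i y) else 0

private theorem R14_psi_meas (i : Bool) (r : ℝ) :
    Measurable fun z : Pt × Pt => R14_psi i r z.1 z.2 := by
  unfold R14_psi
  refine Measurable.ite (measurableSet_lt measurable_tdist measurable_const) ?_ measurable_const
  unfold sdiff
  have h1 : Measurable fun z : Pt × Pt => co i z.2 - co i z.1 :=
    ((R14_co i).comp measurable_snd).sub ((R14_co i).comp measurable_fst)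
  exact h1.sub ((measurable_from_top (f := fun k : ℤ => (k : ℝ))).comp (R14_round.comp h1))

private theorem R14_psi_self (i : Bool) (r : ℝ) (x : Pt) : R14_psi i r x x = 0 := by
  unfold R14_psi sdiff
  split_ifs
  · simp
  · rfl

private theorem R14_pow {μ : Measure Pt} [IsProbabilityMeasure μ] {f : Pt → ℝ≥0∞}
    (hf : Measurable f) (m : ℕ) :
    ∫⁻ y : Fin m → Pt, ∏ j, f (y j) ∂(Measure.pi fun _ => μ) = (∫⁻ x, f x ∂μ) ^ m := by
  induction m with
  | zero => simp
  | succ m ih =>
    have hmp := measurePreserving_piFinSuccAbove (fun _ : Fin (m + 1) => μ) 0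
    have hg : Measurable fun z : Pt × (Fin m → Pt) => f z.1 * ∏ j, f (z.2 j) := by
      refine (hf.comp measurable_fst).mul ?_
      exact Finset.measurable_prod _ fun j _ =>
        hf.comp ((measurable_pi_apply j).comp measurable_snd)
    have h1 := hmp.lintegral_comp hg
    have h2 : (fun a : Fin (m + 1) → Pt =>
        f ((MeasurableEquiv.piFinSuccAbove (fun _ => Pt) 0 a).1) *
          ∏ j, f ((MeasurableEquiv.piFinSuccAbove (fun _ => Pt) 0 a).2 j)) =
        fun a => ∏ j, f (a j) := by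
      funext a
      rw [Fin.prod_univ_succAbove _ 0]
      rfl
    rw [h2] at h1
    rw [h1]
    have hg2 : Measurable fun y : Fin m → Pt => ∏ j, f (y j) :=
      Finset.measurable_prod _ fun j _ => hf.comp (measurable_pi_apply j)
    rw [lintegral_prod_mul (f := f) (g := fun y : Fin m → Pt => ∏ j, f (y j)) hf.aemeasurable
      hg2.aemeasurable, ih, pow_succ, mul_comm]

private theorem R14_mgf (i : Bool) {m : ℕ} {r θ s : ℝ} (hr : 0 < r) (hθ : 0 < θ)
    (hθr : θ * r ≤ 1) (hs : |s| = θ) (u : Fin (m + 1)) :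
    ∫⁻ X, ENNReal.ofReal (Real.exp (s * ∑ v ∈ ball X r u, sdiff (co i (X u)) (co i (X v))))
        ∂(Measure.pi fun _ : Fin (m + 1) => unif) ≤
      ENNReal.ofReal (Real.exp (16 * ((m + 1 : ℕ) : ℝ) * θ ^ 2 * r ^ 4)) := by
  have hprob : IsProbabilityMeasure unif := unif_prob
  have hmp := measurePreserving_piFinSuccAbove (fun _ : Fin (m + 1) => unif) u
  have hF : Measurable fun z : Pt × (Fin m → Pt) =>
      ∏ j, ENNReal.ofReal (Real.exp (s * R14_psi i r z.1 (z.2 j))) := by
    refine Finset.measurable_prod _ fun j _ => ?_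
    have h1 : Measurable fun z : Pt × (Fin m → Pt) => (z.1, z.2 j) :=
      measurable_fst.prodMk ((measurable_pi_apply j).comp measurable_snd)
    exact ENNReal.measurable_ofReal.comp (Real.measurable_exp.comp
      (((R14_psi_meas i r).comp h1).const_mul s))
  have h1 := hmp.lintegral_comp hF
  have h2 : (fun X : Fin (m + 1) → Pt =>
      ENNReal.ofReal (Real.exp (s * ∑ v ∈ ball X r u, sdiff (co i (X u)) (co i (X v))))) =
      fun X => ∏ j, ENNReal.ofReal (Real.exp (s * R14_psi i r
        (MeasurableEquiv.piFinSuccAbove (fun _ => Pt) u X).1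
        ((MeasurableEquiv.piFinSuccAbove (fun _ => Pt) u X).2 j))) := by
    funext X
    have e1 : ∑ v ∈ ball X r u, sdiff (co i (X u)) (co i (X v)) =
        ∑ j, R14_psi i r (X u) (X (u.succAbove j)) := by
      unfold ball
      rw [Finset.sum_filter]
      rw [Fin.sum_univ_succAbove _ u]
      have e2 : (if tdist (X u) (X u) < r then sdiff (co i (X u)) (co i (X u)) else 0) = 0 :=
        R14_psi_self i r (X u)
      rw [e2, zero_add]
      rfl
    rw [e1, Finset.mul_sum, Real.exp_sum, ENNReal.ofReal_prod_of_nonneg]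
    · rfl
    · intro j _
      exact (Real.exp_pos _).le
  rw [h2, h1, lintegral_prod _ hF.aemeasurable]
  have hE0 : (0 : ℝ) ≤ 16 * θ ^ 2 * r ^ 4 := by positivity
  calc ∫⁻ x, ∫⁻ y : Fin m → Pt, ∏ j, ENNReal.ofReal (Real.exp (s * R14_psi i r x (y j)))
        ∂(Measure.pi fun _ => unif) ∂unif
      ≤ ∫⁻ _x, ENNReal.ofReal (Real.exp (16 * θ ^ 2 * r ^ 4)) ^ m ∂unif := by
        refine lintegral_mono_ae ?_
        have hmem : ∀ᵐ x ∂unif, x ∈ Set.Icc (0 : ℝ) 1 ×ˢ Set.Icc (0 : ℝ) 1 := by
          unfold unif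
          exact ae_restrict_mem (measurableSet_Icc.prod measurableSet_Icc)
        filter_upwards [hmem] with x hx
        have hfx : Measurable fun y : Pt => ENNReal.ofReal (Real.exp (s * R14_psi i r x y)) := by
          have h3 : Measurable fun y : Pt => (x, y) := measurable_const.prodMk measurable_id
          exact ENNReal.measurable_ofReal.comp (Real.measurable_exp.comp
            (((R14_psi_meas i r).comp h3).const_mul s))
        rw [R14_pow (μ := unif) hfx m]
        refine pow_le_pow_left₀ zero_le ?_ m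
        have h4 := psi_mgf i (θ := s) hr (by rw [hs]; exact hθr) x hx
        have h5 : s ^ 2 = θ ^ 2 := by rw [← sq_abs, hs]
        rw [h5] at h4
        exact h4
    _ = ENNReal.ofReal (Real.exp (16 * θ ^ 2 * r ^ 4)) ^ m := by
        rw [lintegral_const, measure_univ, mul_one]
    _ ≤ ENNReal.ofReal (Real.exp (16 * ((m + 1 : ℕ) : ℝ) * θ ^ 2 * r ^ 4)) := by
        rw [← ENNReal.ofReal_pow (Real.exp_pos _).le, ← Real.exp_nat_mul]
        refine ENNReal.ofReal_le_ofReal (Real.exp_le_exp.mpr ?_)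
        push_cast
        nlinarith

private theorem R14_markov (i : Bool) {m : ℕ} {r θ lam s : ℝ} (hr : 0 < r) (hθ : 0 < θ)
    (hθr : θ * r ≤ 1) (hs : |s| = θ) (u : Fin (m + 1)) :
    (Measure.pi fun _ : Fin (m + 1) => unif)
      {X | θ * lam ≤ s * ∑ v ∈ ball X r u, sdiff (co i (X u)) (co i (X v))} ≤
      ENNReal.ofReal (Real.exp (-(θ * lam) + 16 * ((m + 1 : ℕ) : ℝ) * θ ^ 2 * r ^ 4)) := by
  have hprob : IsProbabilityMeasure unif := unif_prob
  have hmeas : Measurable fun X : Fin (m + 1) → Pt =>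
      ENNReal.ofReal (Real.exp (s * ∑ v ∈ ball X r u, sdiff (co i (X u)) (co i (X v)))) := by
    have e : (fun X : Fin (m + 1) → Pt => ∑ v ∈ ball X r u, sdiff (co i (X u)) (co i (X v))) =
        fun X => ∑ v, R14_psi i r (X u) (X v) := by
      funext X
      unfold ball
      rw [Finset.sum_filter]
      rfl
    have h1 : Measurable fun X : Fin (m + 1) → Pt =>
        ∑ v ∈ ball X r u, sdiff (co i (X u)) (co i (X v)) := by
      rw [e]
      refine Finset.measurable_sum _ fun v _ => ?_
      have h3 : Measurable fun X : Fin (m + 1) → Pt => (X u, X v) :=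
        (measurable_pi_apply u).prodMk (measurable_pi_apply v)
      exact (R14_psi_meas i r).comp h3
    exact ENNReal.measurable_ofReal.comp (Real.measurable_exp.comp (h1.const_mul s))
  have hpos : 0 < Real.exp (θ * lam) := Real.exp_pos _
  have h1 := meas_ge_le_lintegral_div (μ := Measure.pi fun _ : Fin (m + 1) => unif)
    hmeas.aemeasurable (ε := ENNReal.ofReal (Real.exp (θ * lam)))
    (by rw [Ne, ENNReal.ofReal_eq_zero, not_le]; exact hpos) ENNReal.ofReal_ne_top
  have h2 : {X : Fin (m + 1) → Pt |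
      θ * lam ≤ s * ∑ v ∈ ball X r u, sdiff (co i (X u)) (co i (X v))} ⊆
      {X | ENNReal.ofReal (Real.exp (θ * lam)) ≤
        ENNReal.ofReal (Real.exp (s * ∑ v ∈ ball X r u, sdiff (co i (X u)) (co i (X v))))} := by
    intro X hX
    exact ENNReal.ofReal_le_ofReal (Real.exp_le_exp.mpr hX)
  refine (measure_mono h2).trans (h1.trans ?_)
  calc _ ≤ ENNReal.ofReal (Real.exp (16 * ((m + 1 : ℕ) : ℝ) * θ ^ 2 * r ^ 4)) /
        ENNReal.ofReal (Real.exp (θ * lam)) :=
        ENNReal.div_le_div_right (R14_mgf i hr hθ hθr hs u) _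
    _ = _ := by
        rw [← ENNReal.ofReal_div_of_pos hpos, ← Real.exp_sub]
        congr 2
        ring

theorem drift_prob (i : Bool) {n : ℕ} (hn : 0 < n) {r θ lam : ℝ} (hr : 0 < r) (hθ : 0 < θ)
    (hθr : θ * r ≤ 1) :
    (Measure.pi fun _ : Fin n => unif)
      {X | ¬ ∀ u, |∑ v ∈ ball X r u, sdiff (co i (X u)) (co i (X v))| ≤ lam} ≤
      ENNReal.ofReal (2 * n * Real.exp (-(θ * lam) + 16 * n * θ ^ 2 * r ^ 4)) := by
  obtain ⟨m, rfl⟩ : ∃ m, n = m + 1 := ⟨n - 1, by omega⟩
  set S : (Fin (m + 1) → Pt) → Fin (m + 1) → ℝ := fun X u =>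
    ∑ v ∈ ball X r u, sdiff (co i (X u)) (co i (X v)) with hS
  have hsub : {X : Fin (m + 1) → Pt | ¬ ∀ u, |S X u| ≤ lam} ⊆
      ⋃ u, ({X | θ * lam ≤ θ * S X u} ∪ {X | θ * lam ≤ (-θ) * S X u}) := by
    intro X hX
    have hX' : ¬ ∀ u, |S X u| ≤ lam := hX
    push Not at hX'
    obtain ⟨u, hu⟩ := hX'
    rw [Set.mem_iUnion]
    refine ⟨u, ?_⟩
    rcases lt_abs.mp hu with h | h
    · left
      exact (mul_le_mul_of_nonneg_left h.le hθ.le)
    · right
      show θ * lam ≤ (-θ) * S X u
      nlinarith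
  refine (measure_mono hsub).trans ((measure_iUnion_fintype_le _ _).trans ?_)
  calc ∑ u : Fin (m + 1), (Measure.pi fun _ : Fin (m + 1) => unif)
        ({X | θ * lam ≤ θ * S X u} ∪ {X | θ * lam ≤ (-θ) * S X u})
      ≤ ∑ _u : Fin (m + 1), (ENNReal.ofReal (Real.exp (-(θ * lam) +
          16 * ((m + 1 : ℕ) : ℝ) * θ ^ 2 * r ^ 4)) +
          ENNReal.ofReal (Real.exp (-(θ * lam) + 16 * ((m + 1 : ℕ) : ℝ) * θ ^ 2 * r ^ 4))) := by
        refine Finset.sum_le_sum fun u _ => ?_
        refine (measure_union_le _ _).trans (add_le_add ?_ ?_)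
        · exact R14_markov i hr hθ hθr (abs_of_pos hθ) u
        · exact R14_markov i hr hθ hθr (by rw [abs_neg, abs_of_pos hθ]) u
    _ = ENNReal.ofReal (2 * ((m + 1 : ℕ) : ℝ) * Real.exp (-(θ * lam) +
          16 * ((m + 1 : ℕ) : ℝ) * θ ^ 2 * r ^ 4)) := by
        rw [← ENNReal.ofReal_add (Real.exp_pos _).le (Real.exp_pos _).le, Finset.sum_const,
          Finset.card_univ, Fintype.card_fin, nsmul_eq_mul,
          ← ENNReal.ofReal_natCast, ← ENNReal.ofReal_mul (by positivity)]
        congr 1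
        ring

end EA42
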