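import Pool.Agent.Lib.MP_ea42c6_pr.Two.R1

/-!
# R4 — lower bound for return probabilities

`pk (2j) v v = ∑ x, pk j v x * pk j x v = ∑ x, (pk j v x)² |B v|/|B x| ≥ (1/κ) ∑_{x ∈ A} (pk j v x)²`
(`pk_add`, `pk_rev`), and Cauchy-Schwarz: `(∑_{x ∈ A} pk j v x)² ≤ |A| ∑_{x ∈ A} (pk j v x)²`
(`Finset.sum_mul_sq_le_sq_mul_sq` / `sq_sum_le_card_mul_sum_sq`).
-/

namespace EA42

open scoped Classical

theorem ret_prob {V : Type*} [Fintype V] {B : V → Finset V} {D κ : ℝ} (h : DReg B D κ)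
    (j : ℕ) (v : V) (A : Finset V) (hA : 1 / 2 ≤ ∑ x ∈ A, pk B j v x) :
    1 / (4 * κ * (A.card : ℝ)) ≤ pk B (2 * j) v v := by
  have hD := h.pos
  haveI : Nonempty V := ⟨v⟩
  have hk1 : 1 ≤ κ := kappa_one h
  have hk : 0 < κ := by linarith
  have hApos : 0 < A.card := by
    rcases Finset.eq_empty_or_nonempty A with h0 | h0
    · rw [h0, Finset.sum_empty] at hA
      norm_num at hA
    · exact Finset.card_pos.mpr h0
  have hAR : (0 : ℝ) < A.card := by exact_mod_cast hApos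
  have h1 : ∀ x, pk B j v x ^ 2 ≤ κ * (pk B j v x * pk B j x v) := by
    intro x
    have hx : 0 < ((B x).card : ℝ) := hD.trans_le (h.lo x)
    have h2 := pk_rev h.sym j v x
    have hp : 0 ≤ pk B j v x := pk_nonneg j v x
    have hq : 0 ≤ pk B j x v := pk_nonneg j x v
    have h3 : D * pk B j v x ≤ κ * D * pk B j x v := by
      calc D * pk B j v x ≤ ((B v).card : ℝ) * pk B j v x :=
            mul_le_mul_of_nonneg_right (h.lo v) hp
        _ = ((B x).card : ℝ) * pk B j x v := h2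
        _ ≤ κ * D * pk B j x v := mul_le_mul_of_nonneg_right (h.hi x) hq
    have h4 : D * pk B j v x ≤ D * (κ * pk B j x v) := by
      calc D * pk B j v x ≤ κ * D * pk B j x v := h3
        _ = D * (κ * pk B j x v) := by ring
    have h5 : pk B j v x ≤ κ * pk B j x v := le_of_mul_le_mul_left h4 hD
    have h6 := mul_le_mul_of_nonneg_left h5 hp
    calc pk B j v x ^ 2 = pk B j v x * pk B j v x := pow_two _
      _ ≤ pk B j v x * (κ * pk B j x v) := h6
      _ = _ := by ring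
  have h2 : (∑ x ∈ A, pk B j v x) ^ 2 ≤ (A.card : ℝ) * ∑ x ∈ A, pk B j v x ^ 2 :=
    sq_sum_le_card_mul_sum_sq
  have h3 : ∑ x ∈ A, pk B j v x ^ 2 ≤ κ * pk B (2 * j) v v := by
    have h4 : 2 * j = j + j := by ring
    rw [h4, pk_add, Finset.mul_sum]
    calc ∑ x ∈ A, pk B j v x ^ 2 ≤ ∑ x ∈ A, κ * (pk B j v x * pk B j x v) :=
          Finset.sum_le_sum fun x _ => h1 x
      _ ≤ ∑ x, κ * (pk B j v x * pk B j x v) := by
          refine Finset.sum_le_sum_of_subset_of_nonneg (Finset.subset_univ _) fun x _ _ => ?_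
          exact mul_nonneg hk.le (mul_nonneg (pk_nonneg j v x) (pk_nonneg j x v))
  have h4 : (1 / 4 : ℝ) ≤ (∑ x ∈ A, pk B j v x) ^ 2 := by
    have := pow_le_pow_left₀ (by norm_num : (0 : ℝ) ≤ 1 / 2) hA 2
    linarith
  have h5 : (1 / 4 : ℝ) ≤ (A.card : ℝ) * (κ * pk B (2 * j) v v) :=
    h4.trans (h2.trans (mul_le_mul_of_nonneg_left h3 hAR.le))
  rw [div_le_iff₀ (by positivity)]
  linarith [mul_comm κ (A.card : ℝ)]

end EA42
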