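import Pool.Agent.Lib.MP_ea42c6_pr.Two.R3
import Pool.Agent.Lib.MP_ea42c6_pr.Two.R4
import Pool.Agent.Lib.MP_ea42c6_pr.Two.R11
import Pool.Agent.Lib.MP_ea42c6_pr.Two.R12
import Pool.Agent.Lib.MP_ea42c6_pr.Two.R16
import Pool.Agent.Lib.MP_ea42c6_pr.One.N11

/-!
# R17 — the bound for one `n`

`D = n r²/50`, `κ = 32400`.  `good_dreg`: `symB_ball` (N5), `lo`, `up`.
`good_ret`: `A = {x | tdist (X v) (X x) < √(8 j) r}`; `disp_kernel` with `d = r/L`, `ρ = √(8 j) r`
(`j d ≤ r`): the mass outside `A` is at most `4 j r²/(8 j r²) = 1/2`, so the mass of `A` is at least `1/2`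
(`pk_sum`); `|A| ≤ 5184 j n r² = 259200 j D`; `ret_prob`.
`one_n2`: `law_one_le` (N11) with `Good X = GoodX X r L`, `P G = (ε n ≤ largest G)`; for good `X`:
`abs_bound` with `K = m L`, `q = exp (-(m L c0 log (L/4)/(4 D)))` (`saw_decay`).
-/

namespace EA42

open MeasureTheory
open scoped Classical ENNReal

theorem good_dreg {n L : ℕ} (hn : 0 < n) {X : Fin n → Pt} {r : ℝ} (hr : 0 < r)
    (h : GoodX X r L) : DReg (ball X r) (n * r ^ 2 / 50) 32400 := by
  have hn' : (0 : ℝ) < n := by exact_mod_cast hn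
  refine ⟨symB_ball X hr, by positivity, h.lo, fun u => (h.up u).trans (le_of_eq (by ring))⟩

theorem good_ret {n L : ℕ} (hn : 0 < n) {X : Fin n → Pt} {r : ℝ} (hr : 0 < r)
    (h : GoodX X r L) (j : ℕ) (hj : 1 ≤ j) (hjL : j ≤ L) (v : Fin n) :
    c0 / (n * r ^ 2 / 50 * j) ≤ pk (ball X r) (2 * j) v v := by
  have hn' : (0 : ℝ) < n := by exact_mod_cast hn
  have hj' : (0 : ℝ) < j := by exact_mod_cast hj
  have hL' : (0 : ℝ) < L := by exact_mod_cast (lt_of_lt_of_le hj hjL)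
  have hjL' : (j : ℝ) ≤ L := by exact_mod_cast hjL
  have hdreg := good_dreg hn hr h
  have hd : 0 ≤ r / L := by positivity
  have hs : 0 < Real.sqrt (8 * j) := Real.sqrt_pos.mpr (by positivity)
  have hρ : 0 < Real.sqrt (8 * j) * r := mul_pos hs hr
  have hjd : (j : ℝ) * (r / L) ≤ r := by
    rw [← mul_div_assoc, div_le_iff₀ hL']
    nlinarith
  have h1 := disp_kernel X h.sq hr hd hρ h.drift j hjd v
  have h2 : 4 * (j : ℝ) * r ^ 2 / (Real.sqrt (8 * j) * r) ^ 2 = 1 / 2 := by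
    rw [mul_pow, Real.sq_sqrt (by positivity)]
    field_simp
    norm_num
  rw [h2] at h1
  set A : Finset (Fin n) := Finset.univ.filter fun x => tdist (X v) (X x) < Real.sqrt (8 * j) * r
    with hA
  have h3 : ∑ x ∈ A, pk (ball X r) j v x +
      ∑ x ∈ Finset.univ.filter (fun x => ¬ tdist (X v) (X x) < Real.sqrt (8 * j) * r),
        pk (ball X r) j v x = 1 := by
    rw [hA, Finset.sum_filter_add_sum_filter_not, pk_sum hdreg.sym.self]
  have h4 : 1 / 2 ≤ ∑ x ∈ A, pk (ball X r) j v x := by linarith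
  have h5 := ret_prob hdreg j v A h4
  have h6 : (A.card : ℝ) ≤ 259200 * (n * r ^ 2 / 50 * j) := by
    refine (h.near j hj hjL v).trans (le_of_eq (by ring))
  have hApos : 0 < A.card := by
    rcases Finset.eq_empty_or_nonempty A with h0 | h0
    · rw [h0, Finset.sum_empty] at h4
      norm_num at h4
    · exact Finset.card_pos.mpr h0
  have hAR : (0 : ℝ) < A.card := by exact_mod_cast hApos
  refine le_trans ?_ h5
  unfold c0
  rw [div_div]
  refine one_div_le_one_div_of_le (by positivity) ?_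
  nlinarith

theorem one_n2 {n L m : ℕ} (hn : 0 < n) (hL : 4 ≤ L) {r ε : ℝ} (hr : 0 < r)
    (hr1 : Real.sqrt (8 * L) * r ≤ 1) (hLD : (L : ℝ) ^ 2 ≤ n * r ^ 2 / 50) (hε : 0 < ε) :
    probGiant (PMF.pure 1) n r ε ≤ ENNReal.ofReal
      ((40 * L / r ^ 2 + 4 * n) * Real.exp (-(n * r ^ 2 / (160000 * (L : ℝ) ^ 2))) +
        (2 * Real.exp (-((m : ℝ) * L * c0 * Real.log ((L : ℝ) / 4) / (4 * (n * r ^ 2 / 50)))) +
          32400 ^ 2 * ((m : ℝ) * L + 1) ^ 2 / n) / ε ^ 2) := by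
  haveI : NeZero n := ⟨hn.ne'⟩
  have hn' : (0 : ℝ) < n := by exact_mod_cast hn
  have hc0 : 0 < c0 := by
    unfold c0
    norm_num
  unfold probGiant
  refine (law_one_le hr (fun G => ε * n ≤ (largest G : ℝ)) (fun X => GoodX X r L)
    (b := (2 * Real.exp (-((m : ℝ) * L * c0 * Real.log ((L : ℝ) / 4) / (4 * (n * r ^ 2 / 50)))) +
          32400 ^ 2 * ((m : ℝ) * L + 1) ^ 2 / n) / ε ^ 2) ?_).trans ?_
  · intro X hX
    have hdreg := good_dreg hn hr hX
    have hq : ∀ u, saw (ball X r) (m * L) ∅ u ≤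
        Real.exp (-((m : ℝ) * L * c0 * Real.log ((L : ℝ) / 4) / (4 * (n * r ^ 2 / 50)))) :=
      fun u => saw_decay hdreg hL hLD hc0
        (fun j hj hjL v => good_ret hn hr hX j hj (by omega) v) m u
    have h1 := abs_bound hdreg (m * L) hq hε
    rw [Fintype.card_fin] at h1
    push_cast at h1
    exact h1
  · rw [ENNReal.ofReal_add (by positivity) (by positivity)]
    exact add_le_add (goodX_prob hn (by omega) hr hr1) le_rfl

end EA42
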