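import Pool.Agent.Lib.MP_ea42c6_pr.Two.R17

/-!
# R18 — the limit for `r_n ≥ n^(-3/10)`

`s n = n r⁴/log² n → 0`.  Given `η`: `A > 0` with `2 exp (-(A c0/4))/ε² ≤ η/3`.
For large `n` with `n^(-3/10) ≤ r`: `L = ⌊n^(1/20)⌋₊`, `m = ⌈A n r²/(L log n)⌉₊`.
* `log (L/4) ≥ (1/40) log n` and `m L ≥ A n r²/log n`:
  `m L c0 log (L/4)/(4 n r²/50) ≥ A c0 50/(160) ≥ A c0/4`.
* `m L ≤ A n r²/log n + L`: `(m L + 1)²/n ≤ 3 A² s n + 3 (L² + 1)/n → 0`.
* `n r² ≥ n^(2/5)`, `L² ≤ n^(1/10)`: `(40 L/r² + 4 n) exp (-n r²/(160000 L²)) ≤ 44 n exp (-n^(3/10)/160000) → 0`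
  (`L/r² ≤ n^(1/20) n^(3/5) ≤ n`).
* conditions of `one_n2`: `r ≤ n^(-1/4) √(log n)` for large `n`, so `√(8 L) r ≤ √8 n^(1/40) n^(-1/4) √(log n) ≤ 1`;
  `L² ≤ n^(1/10) ≤ n^(2/5)/50`.
(It may be easiest to work with `t = log n` or to collect the finitely many eventual inequalities in `n`
first; all are of the form `C (log n)^a ≤ n^b`: `isLittleO_log_rpow_atTop`.)
-/

namespace EA42

open MeasureTheory Filter
open scoped Classical ENNReal

private theorem R18_c0_pos : 0 < c0 := by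
  unfold c0
  norm_num

private theorem R18_core {n : ℕ} {r ε η A x : ℝ} (hx : 64 ≤ x) (hnx : (n : ℝ) = x ^ 20)
    (hr : 1 / x ^ 6 ≤ r) (hε : 0 < ε) (hη : 0 < η) (hA : 0 < A)
    (h6 : 44 * (x ^ 20 * Real.exp (-x)) ≤ η / 3)
    (hA2 : 2 * Real.exp (-(A * c0 / 4)) ≤ ε ^ 2 * η / 3)
    (h7 : (n : ℝ) * r ^ 4 / Real.log n ^ 2 ≤ 1)
    (h7' : 32400 ^ 2 * (2 * A ^ 2 * ((n : ℝ) * r ^ 4 / Real.log n ^ 2)) ≤ ε ^ 2 * η / 6)
    (h8 : 32400 ^ 2 * 8 * 6 ≤ ε ^ 2 * η * x) :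
    probGiant (PMF.pure 1) n r ε ≤ ENNReal.ofReal η := by
  have hx0 : 0 < x := by linarith
  have hx1 : 1 ≤ x := by linarith
  have hn0 : (0 : ℝ) < n := by
    rw [hnx]
    positivity
  have hn : 0 < n := by exact_mod_cast hn0
  have hr0 : 0 < r := lt_of_lt_of_le (by positivity) hr
  obtain ⟨t, ht⟩ : ∃ t : ℝ, t = Real.log n := ⟨_, rfl⟩
  have htx : t = 20 * Real.log x := by
    rw [ht, hnx, Real.log_pow]
    norm_num
  have hl8 : 0 < Real.log 8 := Real.log_pos (by norm_num)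
  have hl64 : 2 * Real.log 8 ≤ Real.log x := by
    have h1 : Real.log 64 = 2 * Real.log 8 := by
      have : (64 : ℝ) = 8 ^ 2 := by norm_num
      rw [this, Real.log_pow]
      norm_num
    rw [← h1]
    exact Real.log_le_log (by norm_num) hx
  have ht0 : 0 < t := by
    rw [htx]
    linarith
  have hlx : Real.log x ≤ x := (Real.log_le_sub_one_of_pos hx0).trans (by linarith)
  obtain ⟨L, hL⟩ : ∃ L : ℕ, L = ⌊x⌋₊ := ⟨_, rfl⟩
  have hL1 : (L : ℝ) ≤ x := by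
    rw [hL]
    exact Nat.floor_le hx0.le
  have hL2 : x / 2 ≤ L := by
    have h1 : x < (⌊x⌋₊ : ℝ) + 1 := Nat.lt_floor_add_one x
    rw [hL]
    linarith
  have hL0 : (0 : ℝ) < L := by linarith
  have hL4 : 4 ≤ L := by
    have : (4 : ℝ) ≤ L := by linarith
    exact_mod_cast this
  obtain ⟨q, hq⟩ : ∃ q : ℝ, q = n * r ^ 2 := ⟨_, rfl⟩
  have hq0 : 0 < q := by
    rw [hq]
    positivity
  have hrx : 1 ≤ r * x ^ 6 := by
    rwa [div_le_iff₀ (by positivity)] at hr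
  have hrx2 : 1 ≤ r ^ 2 * x ^ 12 := by
    have h1 : r ^ 2 * x ^ 12 = (r * x ^ 6) ^ 2 := by ring
    rw [h1]
    exact one_le_pow₀ hrx
  have hqx : x ^ 8 ≤ q := by
    rw [hq, hnx]
    have h1 : x ^ 20 * r ^ 2 = x ^ 8 * (r ^ 2 * x ^ 12) := by ring
    rw [h1]
    exact le_mul_of_one_le_right (by positivity) hrx2
  obtain ⟨m, hm⟩ : ∃ m : ℕ, m = ⌈A * q / (L * t)⌉₊ := ⟨_, rfl⟩
  have hm1 : A * q / (L * t) ≤ m := by
    rw [hm]
    exact Nat.le_ceil _
  have hm2 : (m : ℝ) ≤ A * q / (L * t) + 1 := by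
    rw [hm]
    exact (Nat.ceil_lt_add_one (by positivity)).le
  have hmL1 : A * q / t ≤ m * L := by
    have h1 : A * q / t = A * q / (L * t) * L := by
      field_simp
    rw [h1]
    exact mul_le_mul_of_nonneg_right hm1 hL0.le
  have hmL2 : (m : ℝ) * L ≤ A * q / t + L := by
    have h1 : A * q / t = A * q / (L * t) * L := by
      field_simp
    rw [h1]
    nlinarith
  have hlogL : t / 40 ≤ Real.log ((L : ℝ) / 4) := by
    have h1 : Real.log (x / 8) ≤ Real.log ((L : ℝ) / 4) :=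
      Real.log_le_log (by positivity) (by linarith)
    rw [Real.log_div hx0.ne' (by norm_num)] at h1
    rw [htx]
    linarith
  have hpow : ∀ a b : ℕ, a ≤ b → x ^ a ≤ x ^ b := fun a b hab => pow_le_pow_right₀ hx1 hab
  have hx64 : (64 : ℝ) ^ 3 ≤ x ^ 3 := pow_le_pow_left₀ (by norm_num) hx 3
  -- the side conditions
  have c1 : Real.sqrt (8 * L) * r ≤ 1 := by
    have h1 : (8 * (L : ℝ) * r ^ 2) ^ 2 ≤ 1 := by
      have h2 : (8 * (L : ℝ) * r ^ 2) ^ 2 = 64 * (L : ℝ) ^ 2 * r ^ 4 := by ring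
      have h3 : (L : ℝ) ^ 2 ≤ x ^ 2 := pow_le_pow_left₀ hL0.le hL1 2
      have h4 : (n : ℝ) * r ^ 4 ≤ t ^ 2 := by
        rw [← ht] at h7
        rwa [div_le_one (by positivity)] at h7
      have h5 : t ^ 2 ≤ (20 * x) ^ 2 := pow_le_pow_left₀ ht0.le (by rw [htx]; linarith) 2
      have h6 : x ^ 20 * r ^ 4 ≤ 400 * x ^ 2 := by
        rw [← hnx]
        nlinarith
      have h7 : x ^ 18 * r ^ 4 ≤ 400 := by
        have h8 : x ^ 2 * (x ^ 18 * r ^ 4) ≤ x ^ 2 * 400 := by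
          calc x ^ 2 * (x ^ 18 * r ^ 4) = x ^ 20 * r ^ 4 := by ring
            _ ≤ 400 * x ^ 2 := h6
            _ = x ^ 2 * 400 := by ring
        exact le_of_mul_le_mul_left h8 (by positivity)
      have h9 : 64 * 400 * x ^ 2 ≤ x ^ 18 := by
        have h10 : x ^ 5 ≤ x ^ 18 := hpow 5 18 (by norm_num)
        have h11 : 64 * 400 * x ^ 2 ≤ x ^ 3 * x ^ 2 :=
          mul_le_mul_of_nonneg_right (by linarith) (by positivity)
        have h12 : x ^ 3 * x ^ 2 = x ^ 5 := by ring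
        linarith
      rw [h2]
      have h13 : 64 * (L : ℝ) ^ 2 * r ^ 4 ≤ 64 * x ^ 2 * r ^ 4 := by
        have : 0 ≤ r ^ 4 := by positivity
        nlinarith
      have h14 : 400 * (64 * x ^ 2 * r ^ 4) ≤ 400 * 1 := by
        calc 400 * (64 * x ^ 2 * r ^ 4) = (64 * 400 * x ^ 2) * r ^ 4 := by ring
          _ ≤ x ^ 18 * r ^ 4 := mul_le_mul_of_nonneg_right h9 (by positivity)
          _ ≤ 400 * 1 := by linarith
      linarith
    have h2 : 8 * (L : ℝ) * r ^ 2 ≤ 1 := by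
      by_contra hc
      push Not at hc
      nlinarith
    have h3 : (Real.sqrt (8 * L) * r) ^ 2 ≤ 1 := by
      rw [mul_pow, Real.sq_sqrt (by positivity)]
      exact h2
    by_contra hc
    push Not at hc
    nlinarith
  have c2 : (L : ℝ) ^ 2 ≤ n * r ^ 2 / 50 := by
    rw [← hq]
    have h3 : (L : ℝ) ^ 2 ≤ x ^ 2 := pow_le_pow_left₀ hL0.le hL1 2
    have h4 : 50 * x ^ 2 ≤ x ^ 8 := by
      have h10 : x ^ 5 ≤ x ^ 8 := hpow 5 8 (by norm_num)
      have h11 : 50 * x ^ 2 ≤ x ^ 3 * x ^ 2 :=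
        mul_le_mul_of_nonneg_right (by linarith) (by positivity)
      have h12 : x ^ 3 * x ^ 2 = x ^ 5 := by ring
      linarith
    linarith
  refine (one_n2 (m := m) hn hL4 hr0 c1 c2 hε).trans (ENNReal.ofReal_le_ofReal ?_)
  -- the first term
  have b1 : (40 * (L : ℝ) / r ^ 2 + 4 * n) * Real.exp (-(n * r ^ 2 / (160000 * (L : ℝ) ^ 2))) ≤
      η / 3 := by
    have h1 : 40 * (L : ℝ) / r ^ 2 ≤ 40 * x ^ 20 := by
      rw [div_le_iff₀ (by positivity)]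
      have h2 : 40 * x ≤ 40 * x ^ 20 * r ^ 2 := by
        have h3 : 40 * x ^ 20 * r ^ 2 = 40 * x ^ 8 * (r ^ 2 * x ^ 12) := by ring
        have h4 : 40 * x ^ 8 ≤ 40 * x ^ 8 * (r ^ 2 * x ^ 12) :=
          le_mul_of_one_le_right (by positivity) hrx2
        have h5 : x ^ 1 ≤ x ^ 8 := hpow 1 8 (by norm_num)
        rw [pow_one] at h5
        linarith
      linarith
    have h2 : x ≤ n * r ^ 2 / (160000 * (L : ℝ) ^ 2) := by
      rw [← hq, le_div_iff₀ (by positivity)]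
      have h3 : (L : ℝ) ^ 2 ≤ x ^ 2 := pow_le_pow_left₀ hL0.le hL1 2
      have h4 : x * (160000 * (L : ℝ) ^ 2) ≤ x * (160000 * x ^ 2) :=
        mul_le_mul_of_nonneg_left (by linarith) hx0.le
      have h5 : x * (160000 * x ^ 2) ≤ x ^ 3 * x ^ 3 := by
        calc x * (160000 * x ^ 2) = 160000 * x ^ 3 := by ring
          _ ≤ x ^ 3 * x ^ 3 := mul_le_mul_of_nonneg_right (by linarith) (by positivity)
      have h6 : x ^ 3 * x ^ 3 = x ^ 6 := by ring
      have h7 : x ^ 6 ≤ x ^ 8 := hpow 6 8 (by norm_num)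
      linarith
    have h3 : Real.exp (-(n * r ^ 2 / (160000 * (L : ℝ) ^ 2))) ≤ Real.exp (-x) :=
      Real.exp_le_exp.2 (by linarith)
    have h4 : 40 * (L : ℝ) / r ^ 2 + 4 * n ≤ 44 * x ^ 20 := by
      rw [hnx]
      linarith
    calc (40 * (L : ℝ) / r ^ 2 + 4 * n) * Real.exp (-(n * r ^ 2 / (160000 * (L : ℝ) ^ 2)))
        ≤ 44 * x ^ 20 * Real.exp (-x) :=
          mul_le_mul h4 h3 (Real.exp_pos _).le (by positivity)
      _ = 44 * (x ^ 20 * Real.exp (-x)) := by ring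
      _ ≤ η / 3 := h6
  -- the second term
  have b2 : 2 * Real.exp (-((m : ℝ) * L * c0 * Real.log ((L : ℝ) / 4) /
      (4 * (n * r ^ 2 / 50)))) ≤ ε ^ 2 * η / 3 := by
    refine le_trans ?_ hA2
    have h1 : A * c0 / 4 ≤ (m : ℝ) * L * c0 * Real.log ((L : ℝ) / 4) / (4 * (n * r ^ 2 / 50)) := by
      rw [← hq, le_div_iff₀ (by positivity)]
      have hc := R18_c0_pos
      have h2 : A * q / t * c0 * (t / 40) ≤ (m : ℝ) * L * c0 * Real.log ((L : ℝ) / 4) := by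
        refine mul_le_mul (mul_le_mul_of_nonneg_right hmL1 hc.le) hlogL (by positivity)
          (by positivity)
      have h3 : A * q / t * c0 * (t / 40) = A * q * c0 / 40 := by
        field_simp
      rw [h3] at h2
      have h4 : 0 < A * q * c0 := by positivity
      nlinarith
    have h2 := Real.exp_le_exp.2 (neg_le_neg h1)
    linarith
  -- the third term
  have b3 : 32400 ^ 2 * ((m : ℝ) * L + 1) ^ 2 / n ≤ ε ^ 2 * η / 3 := by
    have h1 : ((m : ℝ) * L + 1) ^ 2 ≤ 2 * (A * q / t) ^ 2 + 8 * x ^ 2 := by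
      have h2 : (m : ℝ) * L + 1 ≤ A * q / t + 2 * x := by linarith
      have h3 : 0 ≤ (m : ℝ) * L + 1 := by positivity
      have h4 : ((m : ℝ) * L + 1) ^ 2 ≤ (A * q / t + 2 * x) ^ 2 := pow_le_pow_left₀ h3 h2 2
      nlinarith [sq_nonneg (A * q / t - 2 * x)]
    rw [div_le_iff₀ hn0]
    have h2 : 32400 ^ 2 * (2 * (A * q / t) ^ 2) ≤ ε ^ 2 * η / 6 * n := by
      have h3 : 32400 ^ 2 * (2 * (A * q / t) ^ 2) =
          32400 ^ 2 * (2 * A ^ 2 * ((n : ℝ) * r ^ 4 / Real.log n ^ 2)) * n := by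
        rw [hq, ← ht]
        field_simp
      rw [h3]
      exact mul_le_mul_of_nonneg_right h7' hn0.le
    have h3 : 32400 ^ 2 * (8 * x ^ 2) ≤ ε ^ 2 * η / 6 * n := by
      rw [hnx]
      have h4 : 32400 ^ 2 * 8 * 6 * x ^ 2 ≤ ε ^ 2 * η * x * x ^ 2 :=
        mul_le_mul_of_nonneg_right h8 (by positivity)
      have h5 : ε ^ 2 * η * x * x ^ 2 ≤ ε ^ 2 * η * x ^ 20 := by
        have h6 : ε ^ 2 * η * x * x ^ 2 = ε ^ 2 * η * x ^ 3 := by ring
        rw [h6]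
        exact mul_le_mul_of_nonneg_left (hpow 3 20 (by norm_num)) (by positivity)
      linarith
    nlinarith
  have hε2 : 0 < ε ^ 2 := by positivity
  have b4 : (2 * Real.exp (-((m : ℝ) * L * c0 * Real.log ((L : ℝ) / 4) /
      (4 * (n * r ^ 2 / 50)))) + 32400 ^ 2 * ((m : ℝ) * L + 1) ^ 2 / n) / ε ^ 2 ≤
      2 * η / 3 := by
    rw [div_le_iff₀ hε2]
    linarith
  linarith

theorem two_large (r : ℕ → ℝ) (hr0 : ∀ n, 0 ≤ r n)
    (hr : Tendsto (fun n : ℕ => (n : ℝ) * r n ^ 4 / Real.log n ^ 2) atTop (nhds 0))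
    {ε η : ℝ} (hε : 0 < ε) (hη : 0 < η) :
    ∀ᶠ n : ℕ in atTop, (n : ℝ) ^ (-(3 : ℝ) / 10) ≤ r n →
      probGiant (PMF.pure 1) n (r n) ε ≤ ENNReal.ofReal η := by
  -- the constant A
  obtain ⟨A, hA, hA2⟩ : ∃ A : ℝ, 0 < A ∧ 2 * Real.exp (-(A * c0 / 4)) ≤ ε ^ 2 * η / 3 := by
    have hc := R18_c0_pos
    have h1 : Tendsto (fun A : ℝ => Real.exp (-(A * c0 / 4))) atTop (nhds 0) := by
      refine Real.tendsto_exp_atBot.comp (tendsto_neg_atTop_atBot.comp ?_)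
      have h2 : (fun A : ℝ => A * c0 / 4) = fun A => A * (c0 / 4) := by
        funext A
        ring
      rw [h2]
      exact tendsto_id.atTop_mul_const (by positivity)
    have h3 : (0 : ℝ) < ε ^ 2 * η / 6 := by positivity
    have h4 := (h1.eventually (gt_mem_nhds h3)).and (eventually_gt_atTop 0)
    obtain ⟨A, hA1, hA0⟩ := h4.exists
    exact ⟨A, hA0, by linarith⟩
  -- the eventual conditions
  have hxlim : Tendsto (fun n : ℕ => (n : ℝ) ^ ((1 : ℝ) / 20)) atTop atTop :=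
    (tendsto_rpow_atTop (by norm_num)).comp tendsto_natCast_atTop_atTop
  have e1 : ∀ᶠ x : ℝ in atTop, 44 * (x ^ 20 * Real.exp (-x)) ≤ η / 3 := by
    have h1 := (Real.tendsto_pow_mul_exp_neg_atTop_nhds_zero 20).const_mul 44
    rw [mul_zero] at h1
    have h2 : (0 : ℝ) < η / 3 := by positivity
    filter_upwards [h1.eventually (gt_mem_nhds h2)] with x hx
    exact hx.le
  have e2 : ∀ᶠ x : ℝ in atTop, 32400 ^ 2 * 8 * 6 ≤ ε ^ 2 * η * x := by
    filter_upwards [eventually_ge_atTop (32400 ^ 2 * 8 * 6 / (ε ^ 2 * η))] with x hx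
    rw [div_le_iff₀ (by positivity)] at hx
    linarith
  have e3 : ∀ᶠ n : ℕ in atTop, (n : ℝ) * r n ^ 4 / Real.log n ^ 2 < 1 :=
    hr.eventually (gt_mem_nhds one_pos)
  have e4 : ∀ᶠ n : ℕ in atTop,
      32400 ^ 2 * (2 * A ^ 2 * ((n : ℝ) * r n ^ 4 / Real.log n ^ 2)) < ε ^ 2 * η / 6 := by
    have h1 := ((hr.const_mul (2 * A ^ 2)).const_mul (32400 ^ 2))
    rw [mul_zero, mul_zero] at h1
    exact h1.eventually (gt_mem_nhds (by positivity))
  filter_upwards [hxlim.eventually (eventually_ge_atTop 64), hxlim.eventually e1,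
    hxlim.eventually e2, e3, e4, eventually_gt_atTop 0] with n h1 h2 h3 h4 h5 h6 hle
  have hn0 : (0 : ℝ) ≤ n := Nat.cast_nonneg n
  have hn1 : (0 : ℝ) < n := by exact_mod_cast h6
  refine R18_core (x := (n : ℝ) ^ ((1 : ℝ) / 20)) h1 ?_ ?_ hε hη hA h2 hA2 h4.le h5.le h3
  · rw [← Real.rpow_natCast, ← Real.rpow_mul hn0]
    norm_num
  · refine le_of_eq_of_le ?_ hle
    rw [← Real.rpow_natCast, ← Real.rpow_mul hn0, one_div, ← Real.rpow_neg hn0]
    norm_num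

end EA42
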