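import Pool.Agent.Lib.MP_ea42c6_pr.Two.R18
import Pool.Agent.Lib.MP_ea42c6_pr.One.N16

/-!
# R19 — `ξ = 1`: no giant for `r_n = o(n^(-1/4) (log n)^(1/2))`

Let `r' n = r n` if `r n < n^(-3/10)` and `0` otherwise: `n r'⁴ ≤ n^(-1/5) → 0`, so `one_pick` (N16) applies to
`r'`.  Given `η > 0`, for large `n`: if `r n < n^(-3/10)` then `probGiant (r n) = probGiant (r' n) < η`,
otherwise `two_large`.
-/

namespace EA42

open MeasureTheory Filter
open scoped Classical ENNReal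

theorem two_pick (r : ℕ → ℝ) (hr0 : ∀ n, 0 ≤ r n)
    (hr : Tendsto (fun n : ℕ => (n : ℝ) * r n ^ 4 / Real.log n ^ 2) atTop (nhds 0))
    {ε : ℝ} (hε : 0 < ε) :
    Tendsto (fun n => probGiant (PMF.pure 1) n (r n) ε) atTop (nhds 0) := by
  set r' : ℕ → ℝ := fun n => if r n < (n : ℝ) ^ (-(3 : ℝ) / 10) then r n else 0 with hr'
  have hr'0 : ∀ n, 0 ≤ r' n := by
    intro n
    rw [hr']
    show 0 ≤ if r n < (n : ℝ) ^ (-(3 : ℝ) / 10) then r n else 0
    split_ifs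
    · exact hr0 n
    · exact le_rfl
  have hr'le : ∀ n, r' n ≤ (n : ℝ) ^ (-(3 : ℝ) / 10) := by
    intro n
    rw [hr']
    show (if r n < (n : ℝ) ^ (-(3 : ℝ) / 10) then r n else 0) ≤ _
    split_ifs with h
    · exact h.le
    · exact Real.rpow_nonneg (Nat.cast_nonneg n) _
  have hlim : Tendsto (fun n : ℕ => (n : ℝ) * r' n ^ 4) atTop (nhds 0) := by
    have h1 : Tendsto (fun n : ℕ => (n : ℝ) ^ (-(1 / 5 : ℝ))) atTop (nhds 0) :=
      (tendsto_rpow_neg_atTop (by norm_num : (0 : ℝ) < 1 / 5)).comp tendsto_natCast_atTop_atTop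
    refine squeeze_zero' (Eventually.of_forall fun n => by have := hr'0 n; positivity) ?_ h1
    filter_upwards [eventually_ge_atTop 1] with n hn
    have hn' : (0 : ℝ) < n := by exact_mod_cast hn
    have h2 : r' n ^ 4 ≤ ((n : ℝ) ^ (-(3 : ℝ) / 10)) ^ 4 := pow_le_pow_left₀ (hr'0 n) (hr'le n) 4
    calc (n : ℝ) * r' n ^ 4 ≤ (n : ℝ) * ((n : ℝ) ^ (-(3 : ℝ) / 10)) ^ 4 :=
          mul_le_mul_of_nonneg_left h2 hn'.le
      _ = (n : ℝ) ^ (1 : ℝ) * (n : ℝ) ^ ((-(3 : ℝ) / 10) * (4 : ℕ)) := by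
          rw [Real.rpow_one, Real.rpow_mul hn'.le, Real.rpow_natCast]
      _ = (n : ℝ) ^ (-(1 / 5 : ℝ)) := by
          rw [← Real.rpow_add hn']
          norm_num
  have h1 := one_pick r' (Eventually.of_forall hr'0) hlim hε
  rw [ENNReal.tendsto_nhds_zero]
  intro η0 hη0
  obtain ⟨η, hη, hηle⟩ : ∃ η : ℝ, 0 < η ∧ ENNReal.ofReal η ≤ η0 := by
    by_cases htop : η0 = ⊤
    · exact ⟨1, one_pos, by rw [htop]; exact le_top⟩
    · exact ⟨η0.toReal, ENNReal.toReal_pos hη0.ne' htop, by rw [ENNReal.ofReal_toReal htop]⟩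
  have h2 := two_large r hr0 hr hε hη
  have h3 := ENNReal.tendsto_nhds_zero.mp h1 η0 hη0
  filter_upwards [h2, h3] with n ha hb
  by_cases h : r n < (n : ℝ) ^ (-(3 : ℝ) / 10)
  · have h4 : r' n = r n := if_pos h
    rw [h4] at hb
    exact hb
  · exact (ha (not_lt.mp h)).trans hηle

end EA42
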