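import Pool.Agent.Lib.MP_ea42c6_pr.Two.Defs
import Pool.Agent.Lib.MP_ea42c6_pr.One.N1

/-!
# R2 — second moment of an additive functional

Induction on `j` (for all `u`, `a`).  Step: `∑ v, kerW u v * [(a+F)² + 2|a+F| j d + j r² + r d j²]` with
`F = F u v`, and `kerW u v = 0` unless `v ∈ B u`, where `|F| ≤ r`:
`∑ kerW (a+F)² = a² + 2 a meanF u + ∑ kerW F² ≤ a² + 2|a| d + r²`, `|a+F| ≤ |a| + r`, so the sum is at most
`a² + 2|a| (j+1) d + (j+1) r² + r d (j² + 2 j)`.
-/

namespace EA42

open scoped Classical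

theorem smom_le {V : Type*} [Fintype V] {B : V → Finset V} (hself : ∀ u, u ∈ B u)
    {F : V → V → ℝ} {r d : ℝ} (hr : 0 ≤ r) (hd : 0 ≤ d) (hF : ∀ u, ∀ v ∈ B u, |F u v| ≤ r)
    (hm : ∀ u, |meanF B F u| ≤ d) (j : ℕ) (u : V) (a : ℝ) :
    smom B F j u a ≤ a ^ 2 + 2 * |a| * (j * d) + j * r ^ 2 + r * d * j ^ 2 := by
  have hker : ∀ x y, 0 ≤ kerW B x y := kerW_nonneg
  induction j generalizing u a with
  | zero =>
    have h0 : smom B F 0 u a = a ^ 2 := rfl
    rw [h0]
    have : (0 : ℝ) ≤ 2 * |a| * ((0 : ℕ) * d) + (0 : ℕ) * r ^ 2 + r * d * ((0 : ℕ) : ℝ) ^ 2 := by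
      simp
    linarith
  | succ j ih =>
    have h0 : smom B F (j + 1) u a = ∑ v, kerW B u v * smom B F j v (a + F u v) := rfl
    rw [h0]
    have hK := (isProb_kerW hself u).2
    set C : ℝ := 2 * (|a| + r) * (j * d) + j * r ^ 2 + r * d * j ^ 2 with hC
    have hj : (0 : ℝ) ≤ j := Nat.cast_nonneg j
    have h1 : ∀ v, kerW B u v * smom B F j v (a + F u v) ≤
        a ^ 2 * kerW B u v + 2 * a * (kerW B u v * F u v) + (r ^ 2 + C) * kerW B u v := by
      intro v
      by_cases hv : v ∈ B u
      · have h2 := ih v (a + F u v)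
        have h3 := hF u v hv
        have h4 : |a + F u v| ≤ |a| + r := (abs_add_le _ _).trans (by linarith)
        have h5 : (F u v) ^ 2 ≤ r ^ 2 := by
          rw [← sq_abs]
          exact pow_le_pow_left₀ (abs_nonneg _) h3 2
        have h6 : smom B F j v (a + F u v) ≤ a ^ 2 + 2 * a * F u v + r ^ 2 + C := by
          have h7 : 2 * |a + F u v| * (j * d) ≤ 2 * (|a| + r) * (j * d) :=
            mul_le_mul_of_nonneg_right (by linarith) (mul_nonneg hj hd)
          rw [hC]
          have h8 : (a + F u v) ^ 2 = a ^ 2 + 2 * a * F u v + (F u v) ^ 2 := by ring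
          linarith
        have h9 := mul_le_mul_of_nonneg_left h6 (hker u v)
        calc kerW B u v * smom B F j v (a + F u v)
            ≤ kerW B u v * (a ^ 2 + 2 * a * F u v + r ^ 2 + C) := h9
          _ = _ := by ring
      · have h2 : kerW B u v = 0 := by
          unfold kerW
          rw [if_neg hv]
        rw [h2]
        simp
    have h2 : ∑ v, kerW B u v * smom B F j v (a + F u v) ≤
        a ^ 2 + 2 * a * meanF B F u + (r ^ 2 + C) := by
      calc ∑ v, kerW B u v * smom B F j v (a + F u v) ≤ ∑ v, (a ^ 2 * kerW B u v +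
            2 * a * (kerW B u v * F u v) + (r ^ 2 + C) * kerW B u v) :=
              Finset.sum_le_sum fun v _ => h1 v
        _ = _ := by
          rw [Finset.sum_add_distrib, Finset.sum_add_distrib, ← Finset.mul_sum, ← Finset.mul_sum,
            ← Finset.mul_sum, hK]
          unfold meanF
          ring
    have h3 : 2 * a * meanF B F u ≤ 2 * |a| * d := by
      have h4 : a * meanF B F u ≤ |a| * d := by
        calc a * meanF B F u ≤ |a * meanF B F u| := le_abs_self _
          _ = |a| * |meanF B F u| := abs_mul _ _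
          _ ≤ |a| * d := mul_le_mul_of_nonneg_left (hm u) (abs_nonneg _)
      linarith
    refine h2.trans ?_
    rw [hC]
    push_cast
    nlinarith [h3, mul_nonneg hr hd]

end EA42
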