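import Pool.Agent.Lib.MP_ea42c6_pr.Two.R1
import Pool.Agent.Lib.MP_ea42c6_pr.Two.R2
import Pool.Agent.Lib.MP_ea42c6_pr.One.N5

/-!
# R3 — displacement of the walk on the geometric graph, fixed start

`smom_lift`: induction on `j` (for all `u`, `a`).  `j = 0`: `0 ≤ cdist x0 (y u) ≤ |y u - x0 + k| = |a|`
(`cdist_le`, G1; `cdist_nonneg`).  Step: `a + sdiff (y u) (y v) = y v - x0 + integer`.
`disp_kernel`: for `x` with `tdist ≥ ρ`, `1 ≤ (cdist₁² + cdist₂²)/ρ²` (`tdist` is the square root of the sum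
of the squares); sum over all `x` and use `smom_lift` with `x0 = (X u).i`, `a = 0`, and `smom_le`
(`|sdiff| = cdist ≤ tdist < r` on the ball: `abs_sdiff`, N5): each coordinate contributes
`j r² + r d j² ≤ 2 j r²` as `j d ≤ r`.
-/

namespace EA42

open scoped Classical

theorem smom_lift {V : Type*} [Fintype V] {B : V → Finset V} (y : V → ℝ)
    (hy : ∀ u, y u ∈ Set.Icc (0 : ℝ) 1) {x0 : ℝ} (hx0 : x0 ∈ Set.Icc (0 : ℝ) 1) (j : ℕ) (u : V)
    (a : ℝ) (ha : ∃ k : ℤ, a = y u - x0 + k) :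
    ∑ x, pk B j u x * cdist x0 (y x) ^ 2 ≤ smom B (fun u v => sdiff (y u) (y v)) j u a := by
  induction j generalizing u a with
  | zero =>
    obtain ⟨k, hk⟩ := ha
    have h0 : ∀ x, pk B 0 u x * cdist x0 (y x) ^ 2 = if u = x then cdist x0 (y x) ^ 2 else 0 := by
      intro x
      have h : pk B 0 u x = if u = x then (1 : ℝ) else 0 := rfl
      rw [h, ite_mul, one_mul, zero_mul]
    rw [Finset.sum_congr rfl fun x _ => h0 x, Finset.sum_ite_eq Finset.univ u,
      if_pos (Finset.mem_univ _)]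
    have h1 : smom B (fun u v => sdiff (y u) (y v)) 0 u a = a ^ 2 := rfl
    rw [h1, ← sq_abs a]
    have h2 := cdist_le x0 (y u) (-k)
    have h3 : |y u - x0 - ((-k : ℤ) : ℝ)| = |a| := by
      rw [hk]
      congr 1
      push_cast
      ring
    rw [h3] at h2
    exact pow_le_pow_left₀ (cdist_nonneg hx0 (hy u)) h2 2
  | succ j ih =>
    obtain ⟨k, hk⟩ := ha
    have h1 : smom B (fun u v => sdiff (y u) (y v)) (j + 1) u a =
        ∑ v, kerW B u v * smom B (fun u v => sdiff (y u) (y v)) j v (a + sdiff (y u) (y v)) := rfl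
    have h2 : ∀ x, pk B (j + 1) u x * cdist x0 (y x) ^ 2 =
        ∑ v, kerW B u v * (pk B j v x * cdist x0 (y x) ^ 2) := by
      intro x
      have h : pk B (j + 1) u x = ∑ v, kerW B u v * pk B j v x := rfl
      rw [h, Finset.sum_mul]
      exact Finset.sum_congr rfl fun v _ => mul_assoc _ _ _
    rw [h1, Finset.sum_congr rfl fun x _ => h2 x, Finset.sum_comm]
    refine Finset.sum_le_sum fun v _ => ?_
    rw [← Finset.mul_sum]
    refine mul_le_mul_of_nonneg_left (ih v _ ⟨k - round (y v - y u), ?_⟩) (kerW_nonneg u v)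
    unfold sdiff
    rw [hk]
    push_cast
    ring

theorem disp_kernel {n : ℕ} (X : Fin n → Pt)
    (hX : ∀ u, X u ∈ Set.Icc (0 : ℝ) 1 ×ˢ Set.Icc (0 : ℝ) 1) {r d ρ : ℝ} (hr : 0 < r)
    (hd : 0 ≤ d) (hρ : 0 < ρ)
    (hdr : ∀ i u, |meanF (ball X r) (fun u v => sdiff (co i (X u)) (co i (X v))) u| ≤ d)
    (j : ℕ) (hj : j * d ≤ r) (u : Fin n) :
    ∑ x ∈ Finset.univ.filter (fun x => ¬ tdist (X u) (X x) < ρ), pk (ball X r) j u x ≤
      4 * j * r ^ 2 / ρ ^ 2 := by
  have hy : ∀ (i : Bool) (v : Fin n), co i (X v) ∈ Set.Icc (0 : ℝ) 1 := by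
    intro i v
    unfold co
    cases i
    · exact (hX v).2
    · exact (hX v).1
  have hj0 : (0 : ℝ) ≤ j := Nat.cast_nonneg j
  have key : ∀ i : Bool, ∑ x, pk (ball X r) j u x * cdist (co i (X u)) (co i (X x)) ^ 2 ≤
      2 * j * r ^ 2 := by
    intro i
    have h1 := smom_lift (B := ball X r) (fun v => co i (X v)) (hy i) (hy i u) j u 0
      ⟨0, by simp⟩
    have hF : ∀ v, ∀ w ∈ ball X r v, |sdiff (co i (X v)) (co i (X w))| ≤ r := by
      intro v w hw
      rw [abs_sdiff (hy i v) (hy i w)]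
      have h2 : tdist (X v) (X w) < r := (Finset.mem_filter.mp hw).2
      refine le_trans ?_ h2.le
      unfold tdist
      refine (le_abs_self _).trans (Real.abs_le_sqrt ?_)
      unfold co
      cases i
      · exact le_add_of_nonneg_left (sq_nonneg _)
      · exact le_add_of_nonneg_right (sq_nonneg _)
    have h2 := smom_le (B := ball X r) (symB_ball X hr).self
      (F := fun v w => sdiff (co i (X v)) (co i (X w))) hr.le hd hF (hdr i) j u 0
    refine h1.trans (h2.trans ?_)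
    have h3 : r * d * (j : ℝ) ^ 2 ≤ (j : ℝ) * r ^ 2 := by
      have h4 : (j : ℝ) * r * (j * d) ≤ (j : ℝ) * r * r :=
        mul_le_mul_of_nonneg_left hj (mul_nonneg hj0 hr.le)
      calc r * d * (j : ℝ) ^ 2 = (j : ℝ) * r * (j * d) := by ring
        _ ≤ (j : ℝ) * r * r := h4
        _ = (j : ℝ) * r ^ 2 := by ring
    rw [abs_zero]
    linarith
  have h5 : ∀ x, tdist (X u) (X x) ^ 2 = cdist (co true (X u)) (co true (X x)) ^ 2 +
      cdist (co false (X u)) (co false (X x)) ^ 2 := by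
    intro x
    have h6 : tdist (X u) (X x) = Real.sqrt (cdist (X u).1 (X x).1 ^ 2 +
      cdist (X u).2 (X x).2 ^ 2) := rfl
    rw [h6, Real.sq_sqrt (by positivity)]
    rfl
  rw [le_div_iff₀ (by positivity)]
  have h6 : (∑ x ∈ Finset.univ.filter (fun x => ¬ tdist (X u) (X x) < ρ),
      pk (ball X r) j u x) * ρ ^ 2 ≤ ∑ x, pk (ball X r) j u x * tdist (X u) (X x) ^ 2 := by
    rw [Finset.sum_mul]
    calc ∑ x ∈ Finset.univ.filter (fun x => ¬ tdist (X u) (X x) < ρ), pk (ball X r) j u x * ρ ^ 2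
        ≤ ∑ x ∈ Finset.univ.filter (fun x => ¬ tdist (X u) (X x) < ρ),
          pk (ball X r) j u x * tdist (X u) (X x) ^ 2 := by
          refine Finset.sum_le_sum fun x hx => ?_
          refine mul_le_mul_of_nonneg_left ?_ (pk_nonneg j u x)
          exact pow_le_pow_left₀ hρ.le (not_lt.mp (Finset.mem_filter.mp hx).2) 2
      _ ≤ ∑ x, pk (ball X r) j u x * tdist (X u) (X x) ^ 2 := by
          refine Finset.sum_le_sum_of_subset_of_nonneg (Finset.subset_univ _) fun x _ _ => ?_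
          exact mul_nonneg (pk_nonneg j u x) (sq_nonneg _)
  refine h6.trans ?_
  rw [Finset.sum_congr rfl fun x _ => by rw [h5 x, mul_add], Finset.sum_add_distrib]
  linarith [key true, key false]

end EA42
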