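import Pool.Agent.Lib.MP_ea42c6_pr.Two.R1

/-!
# R5 — bounds for `ret`

`ret_le`: induction on `L` (for all `c ≥ 0`, `u`): `∑ v, kerW u v * c' v ≤ (∑ c')/D` with
`c' = c + 1_u`, `∑ c' = ∑ c + 1`, and `L (∑ c + 1 + L)/D` for the rest:
`(∑ c + 1)/D + L (∑ c + 1 + L)/D ≤ (L+1)(∑ c + L + 1)/D`.
`ret_ge'`: induction on `L` (for all `c ≥ 0`, `u`); with `c' = c + 1_u`,
`ret (L+1) c u ≥ ∑ v, kerW u v * c' v + ∑ v, kerW u v * (∑_{t=1}^{L} ∑ x, pk t v x * c' x + g L)
= ∑_{t=1}^{L+1} ∑ x, pk t u x * c' x + g L` and `∑ x, pk t u x * c' x = ∑ x, pk t u x * c x + pk t u u`,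
where `g L = ∑_{i=1}^{L} ∑_{m=1}^{i} a m` and `∑_{t=1}^{L+1} pk t u u ≥ ∑_{m=1}^{L+1} a m`.
`ret_ge`: drop the first sum.
-/

namespace EA42

open scoped Classical

variable {V : Type*} [Fintype V] {B : V → Finset V}

private theorem R5_icc (f : ℕ → ℝ) (L : ℕ) :
    ∑ t ∈ Finset.Icc 1 L, f t = ∑ t ∈ Finset.range L, f (t + 1) := by
  induction L with
  | zero => simp
  | succ L ih => rw [Finset.sum_Icc_succ_top (by omega), Finset.sum_range_succ, ih]

private theorem R5_sum (c : V → ℝ) (u : V) :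
    ∑ x, (c x + if x = u then 1 else 0) = (∑ x, c x) + 1 := by
  rw [Finset.sum_add_distrib, Finset.sum_ite_eq' Finset.univ u, if_pos (Finset.mem_univ _)]

private theorem R5_nn (c : V → ℝ) (hc : ∀ x, 0 ≤ c x) (u x : V) :
    0 ≤ c x + if x = u then (1 : ℝ) else 0 := by
  have := hc x
  split_ifs
  · linarith
  · linarith

theorem ret_le {D κ : ℝ} (h : DReg B D κ) (L : ℕ) (c : V → ℝ) (hc : ∀ x, 0 ≤ c x) (u : V) :
    ret B L c u ≤ L * ((∑ x, c x) + L) / D := by
  have hD := h.pos
  have hK : ∀ w v, kerW B w v ≤ 1 / D := by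
    intro w v
    unfold kerW
    split_ifs
    · exact one_div_le_one_div_of_le hD (h.lo w)
    · positivity
  induction L generalizing c u with
  | zero =>
    have h0 : ret B 0 c u = 0 := rfl
    rw [h0]
    simp
  | succ L ih =>
    have h0 : ret B (L + 1) c u = ∑ v, kerW B u v * ((c v + if v = u then 1 else 0) +
      ret B L (fun x => c x + if x = u then 1 else 0) v) := rfl
    rw [h0]
    have hc' : ∀ x, 0 ≤ (fun x => c x + if x = u then (1 : ℝ) else 0) x := R5_nn c hc u
    have h1 : ∀ v, kerW B u v * ((c v + if v = u then 1 else 0) +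
        ret B L (fun x => c x + if x = u then 1 else 0) v) ≤
        1 / D * (c v + if v = u then 1 else 0) +
          kerW B u v * (L * (((∑ x, c x) + 1) + L) / D) := by
      intro v
      rw [mul_add]
      refine add_le_add (mul_le_mul_of_nonneg_right (hK u v) (R5_nn c hc u v)) ?_
      have h2 := ih (fun x => c x + if x = u then 1 else 0) hc' v
      rw [R5_sum] at h2
      exact mul_le_mul_of_nonneg_left h2 (kerW_nonneg u v)
    refine (Finset.sum_le_sum fun v _ => h1 v).trans ?_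
    rw [Finset.sum_add_distrib, ← Finset.mul_sum, ← Finset.sum_mul, R5_sum,
      (isProb_kerW h.sym.self u).2, one_mul, ← mul_div_right_comm, one_mul, ← add_div]
    refine div_le_div_of_nonneg_right ?_ hD.le
    push_cast
    have h3 : (0 : ℝ) ≤ L := Nat.cast_nonneg L
    nlinarith

theorem ret_ge' (hself : ∀ u, u ∈ B u) {L₀ : ℕ} (a : ℕ → ℝ)
    (ha : ∀ m, 1 ≤ m → m ≤ L₀ → ∀ v, a m ≤ pk B m v v) (L : ℕ) (hL : L ≤ L₀) (c : V → ℝ)
    (hc : ∀ x, 0 ≤ c x) (u : V) :
    ∑ t ∈ Finset.Icc 1 L, ∑ x, pk B t u x * c x +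
      ∑ i ∈ Finset.Icc 1 L, ∑ m ∈ Finset.Icc 1 i, a m ≤ ret B L c u := by
  induction L generalizing c u with
  | zero =>
    have h0 : ret B 0 c u = 0 := rfl
    rw [h0]
    simp
  | succ L ih =>
    have h0 : ret B (L + 1) c u = ∑ v, kerW B u v * ((c v + if v = u then 1 else 0) +
      ret B L (fun x => c x + if x = u then 1 else 0) v) := rfl
    rw [h0]
    set c' : V → ℝ := fun x => c x + if x = u then 1 else 0 with hc'
    set G : ℝ := ∑ i ∈ Finset.Icc 1 L, ∑ m ∈ Finset.Icc 1 i, a m with hG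
    have hnn : ∀ x, 0 ≤ c' x := R5_nn c hc u
    have h1 : ∑ v, kerW B u v * (c' v + (∑ t ∈ Finset.range L, ∑ x, pk B (t + 1) v x * c' x + G))
        ≤ ∑ v, kerW B u v * ((c v + if v = u then 1 else 0) + ret B L c' v) := by
      refine Finset.sum_le_sum fun v _ => ?_
      refine mul_le_mul_of_nonneg_left ?_ (kerW_nonneg u v)
      have h2 := ih (by omega) c' hnn v
      rw [R5_icc (fun t => ∑ x, pk B t v x * c' x)] at h2
      have h3 : c' v = c v + if v = u then 1 else 0 := rfl
      rw [← h3]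
      linarith
    refine le_trans ?_ h1
    have e1 : ∑ v, kerW B u v * (c' v + (∑ t ∈ Finset.range L, ∑ x, pk B (t + 1) v x * c' x + G))
        = ∑ x, pk B 1 u x * c' x + ∑ t ∈ Finset.range L, ∑ x, pk B (t + 1 + 1) u x * c' x + G := by
      have e2 : ∀ v, kerW B u v * (c' v + (∑ t ∈ Finset.range L, ∑ x, pk B (t + 1) v x * c' x + G))
          = kerW B u v * c' v + ∑ t ∈ Finset.range L, ∑ x, kerW B u v * pk B (t + 1) v x * c' x +
            kerW B u v * G := by
        intro v
        have e3 : ∑ t ∈ Finset.range L, ∑ x, kerW B u v * pk B (t + 1) v x * c' x =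
            kerW B u v * ∑ t ∈ Finset.range L, ∑ x, pk B (t + 1) v x * c' x := by
          rw [Finset.mul_sum]
          refine Finset.sum_congr rfl fun t _ => ?_
          rw [Finset.mul_sum]
          exact Finset.sum_congr rfl fun x _ => mul_assoc _ _ _
        rw [e3]
        ring
      rw [Finset.sum_congr rfl fun v _ => e2 v, Finset.sum_add_distrib, Finset.sum_add_distrib,
        ← Finset.sum_mul, (isProb_kerW hself u).2, one_mul]
      congr 1
      congr 1
      · exact Finset.sum_congr rfl fun x _ => by rw [pk_one]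
      · rw [Finset.sum_comm]
        refine Finset.sum_congr rfl fun t _ => ?_
        rw [Finset.sum_comm]
        refine Finset.sum_congr rfl fun x _ => ?_
        rw [← Finset.sum_mul]
        rfl
    have e4 : ∀ t, ∑ x, pk B (t + 1) u x * c' x =
        ∑ x, pk B (t + 1) u x * c x + pk B (t + 1) u u := by
      intro t
      have e5 : ∀ x, pk B (t + 1) u x * c' x = pk B (t + 1) u x * c x +
          if x = u then pk B (t + 1) u x else 0 := by
        intro x
        have e6 : c' x = c x + if x = u then 1 else 0 := rfl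
        rw [e6, mul_add, mul_ite, mul_one, mul_zero]
      rw [Finset.sum_congr rfl fun x _ => e5 x, Finset.sum_add_distrib,
        Finset.sum_ite_eq' Finset.univ u, if_pos (Finset.mem_univ _)]
    have e7 : ∑ x, pk B 1 u x * c' x + ∑ t ∈ Finset.range L, ∑ x, pk B (t + 1 + 1) u x * c' x =
        ∑ t ∈ Finset.range (L + 1), ∑ x, pk B (t + 1) u x * c' x := by
      rw [Finset.sum_range_succ' (fun t => ∑ x, pk B (t + 1) u x * c' x), Nat.zero_add, add_comm]
    rw [e1, e7, Finset.sum_congr rfl fun t _ => e4 t, Finset.sum_add_distrib,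
      R5_icc (fun t => ∑ x, pk B t u x * c x), Finset.sum_Icc_succ_top (by omega), R5_icc a (L + 1)]
    have e8 : ∑ t ∈ Finset.range (L + 1), a (t + 1) ≤
        ∑ t ∈ Finset.range (L + 1), pk B (t + 1) u u := by
      refine Finset.sum_le_sum fun t ht => ?_
      have := Finset.mem_range.mp ht
      exact ha (t + 1) (by omega) (by omega) u
    linarith

theorem ret_ge (hself : ∀ u, u ∈ B u) (a : ℕ → ℝ) (L : ℕ)
    (ha : ∀ m, 1 ≤ m → m ≤ L → ∀ v, a m ≤ pk B m v v) (c : V → ℝ) (hc : ∀ x, 0 ≤ c x) (u : V) :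
    ∑ i ∈ Finset.Icc 1 L, ∑ m ∈ Finset.Icc 1 i, a m ≤ ret B L c u := by
  have h1 := ret_ge' hself a ha L le_rfl c hc u
  have h2 : 0 ≤ ∑ t ∈ Finset.Icc 1 L, ∑ x, pk B t u x * c x :=
    Finset.sum_nonneg fun t _ => Finset.sum_nonneg fun x _ => mul_nonneg (pk_nonneg t u x) (hc x)
  linarith

end EA42
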