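import Pool.Agent.Lib.MP_ea42c6_pr.Two.R5
import Pool.Agent.Lib.MP_ea42c6_pr.Two.R7

/-!
# R6 — the first coincidence

Induction on `L` (for all `S`, `u ∉ S`).  `L = 0`: `0 ≤ 2 (1 - 1)`.  Step: `c = 1_S`, `c' = 1_{insert u S}`
(since `u ∉ S`), and with `S' = insert u S`
`ret (L+1) 1_S u = ∑ v, kerW u v (1_{S'} v + ret L 1_{S'} v)`,
`2 (1 - saw (L+1) S u) = ∑ v, kerW u v (2 - 2 saw L S' v)`.
`v ∉ S'`: induction hypothesis.  `v ∈ S'`: `saw L S' v = 0` and `1 + ret L 1_{S'} v ≤ 1 + L (|S| + 1 + L)/D ≤ 2`
(`ret_le`; `L ≤ L₀`, `|S| + 1 + L ≤ L₀`, `L₀² ≤ D`).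
-/

namespace EA42

open scoped Classical

theorem first_coinc {V : Type*} [Fintype V] {B : V → Finset V} {D κ : ℝ} (h : DReg B D κ)
    {L₀ : ℕ} (hL₀ : (L₀ : ℝ) ^ 2 ≤ D) (L : ℕ) (S : Finset V) (hS : S.card + L ≤ L₀) (u : V)
    (hu : u ∉ S) :
    ret B L (fun x => if x ∈ S then 1 else 0) u ≤ 2 * (1 - saw B L (S : Set V) u) := by
  induction L generalizing S u with
  | zero =>
    have h0 : ret B 0 (fun x => if x ∈ S then (1 : ℝ) else 0) u = 0 := rfl
    have h1 : saw B 0 (S : Set V) u = 1 := by
      rw [saw, if_neg (by rwa [Finset.mem_coe])]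
    rw [h0, h1]
    norm_num
  | succ L ih =>
    have hpos : ∀ v, (B v).Nonempty := by
      intro v
      rw [← Finset.card_pos]
      have h1 := lt_of_lt_of_le h.pos (h.lo v)
      exact_mod_cast h1
    have hk1 : ∑ v, kerW B u v = 1 := by
      unfold kerW
      rw [Finset.sum_ite_mem, Finset.univ_inter, Finset.sum_const, nsmul_eq_mul]
      have hc : ((B u).card : ℝ) ≠ 0 := by
        have h1 := lt_of_lt_of_le h.pos (h.lo u)
        exact ne_of_gt h1
      field_simp
    have hfun : (fun x => (if x ∈ S then (1 : ℝ) else 0) + if x = u then (1 : ℝ) else 0) =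
        fun x => if x ∈ insert u S then (1 : ℝ) else 0 := by
      funext x
      by_cases hx : x = u
      · subst hx
        rw [if_neg hu, if_pos rfl, if_pos (Finset.mem_insert_self _ _)]
        norm_num
      · by_cases hxS : x ∈ S
        · rw [if_pos hxS, if_neg hx, if_pos (Finset.mem_insert_of_mem hxS)]
          norm_num
        · rw [if_neg hxS, if_neg hx, if_neg]
          · norm_num
          · rw [Finset.mem_insert]
            tauto
    have hret : ret B (L + 1) (fun x => if x ∈ S then (1 : ℝ) else 0) u =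
        ∑ v, kerW B u v * ((if v ∈ insert u S then (1 : ℝ) else 0) +
          ret B L (fun x => if x ∈ insert u S then (1 : ℝ) else 0) v) := by
      show ∑ v, kerW B u v * (((if v ∈ S then (1 : ℝ) else 0) + if v = u then 1 else 0) +
        ret B L (fun x => (if x ∈ S then (1 : ℝ) else 0) + if x = u then 1 else 0) v) = _
      rw [hfun]
      refine Finset.sum_congr rfl fun v _ => ?_
      have := congrFun hfun v
      rw [this]
    have hsaw : saw B (L + 1) (S : Set V) u =
        ∑ v, kerW B u v * saw B L ((insert u S : Finset V) : Set V) v := by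
      rw [saw, if_neg (by rwa [Finset.mem_coe]), Finset.coe_insert]
    have hrw : 2 * (1 - saw B (L + 1) (S : Set V) u) =
        ∑ v, kerW B u v * (2 * (1 - saw B L ((insert u S : Finset V) : Set V) v)) := by
      rw [hsaw]
      have : ∀ v, kerW B u v * (2 * (1 - saw B L ((insert u S : Finset V) : Set V) v)) =
          2 * kerW B u v - 2 * (kerW B u v * saw B L ((insert u S : Finset V) : Set V) v) := by
        intro v; ring
      rw [Finset.sum_congr rfl fun v _ => this v, Finset.sum_sub_distrib, ← Finset.mul_sum,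
        ← Finset.mul_sum, hk1]
      ring
    rw [hret, hrw]
    refine Finset.sum_le_sum fun v _ => mul_le_mul_of_nonneg_left ?_ (kerW_nonneg _ _)
    have hcard : (insert u S).card = S.card + 1 := Finset.card_insert_of_notMem hu
    by_cases hv : v ∈ insert u S
    · rw [if_pos hv, saw_of_mem L (Finset.mem_coe.mpr hv)]
      have h1 := ret_le h L (fun x => if x ∈ insert u S then (1 : ℝ) else 0)
        (fun x => by split_ifs <;> norm_num) v
      have h2 : ∑ x, (if x ∈ insert u S then (1 : ℝ) else 0) = S.card + 1 := by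
        rw [Finset.sum_ite_mem, Finset.univ_inter, Finset.sum_const, nsmul_eq_mul, hcard]
        push_cast
        ring
      rw [h2] at h1
      have h3 : (L : ℝ) * ((S.card : ℝ) + 1 + L) / D ≤ 1 := by
        rw [div_le_one h.pos]
        have h4 : (L : ℝ) ≤ L₀ := by
          have : L ≤ L₀ := by omega
          exact_mod_cast this
        have h5 : (S.card : ℝ) + 1 + L ≤ L₀ := by
          have : S.card + 1 + L ≤ L₀ := by omega
          exact_mod_cast this
        have h6 : (0 : ℝ) ≤ L := Nat.cast_nonneg _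
        have h7 : (0 : ℝ) ≤ (S.card : ℝ) + 1 + L := by positivity
        nlinarith
      linarith
    · rw [if_neg hv, zero_add]
      exact ih (insert u S) (by rw [hcard]; omega) v hv

end EA42
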